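import Pool.Agent.Helper666.FinGen.Uncross

/-!
# An expressible matroid of rank three has few three-point lines
-/

namespace Pool.Agent.Helper666.FinGen

open Set

theorem Dec.submod {c : ℕ} {E : Type} {f : Set E → ℤ} (h : Dec c f) : Submod f := by
  induction h with
  | junta h S hc hsub hS => exact hsub
  | add f g _ _ ih1 ih2 =>
    intro X Y
    have h1 := ih1 X Y
    have h2 := ih2 X Y
    beta_reduce
    linarith

theorem core {V : Type} [Fintype V] [DecidableEq V] (M : Matroid V) [M.Finite] (hE : M.E = Set.univ)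
    (Λ : Finset (Finset V)) (h3 : ∀ l ∈ Λ, l.card = 3)
    (hmeet : ∀ l ∈ Λ, ∀ l' ∈ Λ, l ≠ l' → ∀ v, v ∈ l → v ∈ l' → l ∩ l' = {v})
    (r1 : ∀ v, rk M {v} = 1) (r2 : ∀ u v, u ≠ v → 2 ≤ rk M {u, v})
    (rl : ∀ l ∈ Λ, rk M (↑l : Set V) = 2)
    (rlv : ∀ l ∈ Λ, ∀ v, v ∉ l → 3 ≤ rk M ((↑l : Set V) ∪ {v}))
    (rll : ∀ l ∈ Λ, ∀ l' ∈ Λ, l ≠ l' → 3 ≤ rk M ((↑l : Set V) ∪ ↑l'))
    {c : ℕ} (hM : Expr c M) : Λ.card ≤ c * Fintype.card V := by
  classical
  obtain ⟨E, hEf, i, f, hf, h1, h2⟩ := hM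
  have hsub := hf.submod
  have hμ : ∀ A : Set V, ∃ X : Set E, i ⁻¹' X = A ∧ f X ≤ rk M A ∧
      ∀ Y : Set E, i ⁻¹' Y = A → f Y ≤ rk M A → Y ⊆ X := by
    intro A
    have hne : {X : Set E | i ⁻¹' X = A ∧ f X ≤ rk M A}.Nonempty := by
      obtain ⟨X, hX1, hX2⟩ := h2 A (by rw [hE]; exact Set.subset_univ _)
      refine ⟨X, ?_, hX2⟩
      rw [hE, Set.inter_univ] at hX1
      exact hX1
    obtain ⟨X, hX⟩ := (Set.toFinite {X : Set E | i ⁻¹' X = A ∧ f X ≤ rk M A}).exists_maximal hne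
    refine ⟨X, hX.prop.1, hX.prop.2, ?_⟩
    intro Y hY1 hY2
    have h4 : (X ∪ Y) ∈ {X : Set E | i ⁻¹' X = A ∧ f X ≤ rk M A} := by
      refine ⟨?_, ?_⟩
      · rw [Set.preimage_union, hX.prop.1, hY1, Set.union_self]
      · have h5 := hsub X Y
        have h6 := h1 (X ∩ Y)
        rw [Set.preimage_inter, hX.prop.1, hY1, Set.inter_self] at h6
        have h7 := hX.prop.2
        linarith
    exact Set.subset_union_right.trans (hX.le_of_ge h4 Set.subset_union_left)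
  choose μ hμ1 hμ2 hμ3 using hμ
  have hmono : ∀ A B : Set V, A ⊆ B → μ A ⊆ μ B := by
    intro A B hAB
    have h4 := hsub (μ A) (μ B)
    have h5 := h1 (μ A ∩ μ B)
    rw [Set.preimage_inter, hμ1, hμ1, Set.inter_eq_self_of_subset_left hAB] at h5
    have h6 := hμ3 B (μ A ∪ μ B) (by
      rw [Set.preimage_union, hμ1, hμ1, Set.union_eq_self_of_subset_left hAB])
      (by have := hμ2 A; have := hμ2 B; linarith)
    exact Set.subset_union_left.trans h6
  have hmod : ∀ A B : Set V, rk M A + rk M B ≤ rk M (A ∪ B) + rk M (A ∩ B) →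
      μ A ∩ μ B ⊆ μ (A ∩ B) := by
    intro A B hAB
    have h4 := hsub (μ A) (μ B)
    have h5 := h1 (μ A ∪ μ B)
    rw [Set.preimage_union, hμ1, hμ1] at h5
    refine hμ3 _ _ (by rw [Set.preimage_inter, hμ1, hμ1]) ?_
    have := hμ2 A
    have := hμ2 B
    linarith
  obtain ⟨T0, hT0⟩ : ∃ T0, T0 = μ ∅ := ⟨_, rfl⟩
  let D : V → Set E := fun v => μ {v} \ T0
  let L : Finset V → Set E := fun l => μ (↑l : Set V) \ T0
  have hT0sub : ∀ A, T0 ⊆ μ A := fun A => by rw [hT0]; exact hmono _ _ (Set.empty_subset _)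
  have hD : ∀ u v, u ≠ v → D u ∩ D v = ∅ := by
    intro u v huv
    have h4 := hmod {u} {v} (by
      rw [r1, r1]
      have h5 : ({u} ∪ {v} : Set V) = {u, v} := rfl
      rw [h5]
      have := r2 u v huv
      have := rk_nonneg M ({u} ∩ {v})
      linarith)
    have h5 : ({u} ∩ {v} : Set V) = ∅ := by
      ext x
      simp only [Set.mem_inter_iff, Set.mem_singleton_iff, Set.mem_empty_iff_false, iff_false]
      rintro ⟨rfl, rfl⟩
      exact huv rfl
    rw [h5, ← hT0] at h4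
    ext x
    simp only [Set.mem_inter_iff, Set.mem_empty_iff_false, iff_false]
    rintro ⟨⟨h6, h7⟩, ⟨h8, _⟩⟩
    exact h7 (h4 ⟨h6, h8⟩)
  have hDL : ∀ l ∈ Λ, ∀ v ∈ l, D v ⊆ L l := by
    intro l _ v hv
    exact Set.sdiff_subset_sdiff_left (hmono _ _ (Set.singleton_subset_iff.mpr (by exact_mod_cast hv)))
  have hDL' : ∀ l ∈ Λ, ∀ v ∉ l, L l ∩ D v = ∅ := by
    intro l hl v hv
    have h4 := hmod (↑l) {v} (by
      rw [r1, rl l hl]
      have := rlv l hl v hv
      have := rk_nonneg M ((↑l : Set V) ∩ {v})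
      linarith)
    have h5 : ((↑l : Set V) ∩ {v}) = ∅ := by
      ext x
      simp only [Set.mem_inter_iff, Set.mem_singleton_iff, Set.mem_empty_iff_false, iff_false]
      rintro ⟨h6, rfl⟩
      exact hv (by exact_mod_cast h6)
    rw [h5, ← hT0] at h4
    ext x
    simp only [Set.mem_inter_iff, Set.mem_empty_iff_false, iff_false]
    rintro ⟨⟨h6, h7⟩, ⟨h8, _⟩⟩
    exact h7 (h4 ⟨h6, h8⟩)
  have hLL : ∀ l ∈ Λ, ∀ l' ∈ Λ, l ≠ l' → ∀ v, v ∈ l → v ∈ l' → L l ∩ L l' ⊆ D v := by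
    intro l hl l' hl' hne v hv hv'
    have h5 : ((↑l : Set V) ∩ ↑l') = {v} := by
      rw [← Finset.coe_inter, hmeet l hl l' hl' hne v hv hv', Finset.coe_singleton]
    have h4 := hmod (↑l) (↑l') (by
      rw [rl l hl, rl l' hl', h5, r1]
      have := rll l hl l' hl' hne
      linarith)
    rw [h5] at h4
    rintro x ⟨⟨h6, h7⟩, ⟨h8, _⟩⟩
    exact ⟨h4 ⟨h6, h8⟩, h7⟩
  let m : E → ℕ := fun x => if ∃ v, x ∈ D v then c else ∑ l ∈ Λ, ind (L l) x
  have hm1 : ∀ x v, x ∈ D v → m x = c := fun x v hx => if_pos ⟨v, hx⟩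
  have hm2 : ∀ x, (∀ v, x ∉ D v) → m x = ∑ l ∈ Λ, ind (L l) x := by
    intro x hx
    apply if_neg
    rintro ⟨v, hv⟩
    exact hx v hv
  obtain ⟨N, hN⟩ : ∃ N, N = Λ.card + Fintype.card V * c := ⟨_, rfl⟩
  have hΦ : ∀ h : Set E → ℤ, Dec c h →
      (∑ l ∈ Λ, ∑ v ∈ l, (h (μ {v}) - h T0)) +
        ∑ t ∈ Finset.range N, (h ({x | t + 1 ≤ m x} ∪ T0) - h T0) ≤
      (∑ l ∈ Λ, (h (μ (↑l : Set V)) - h T0)) + c * ∑ v, (h (μ {v}) - h T0) := by
    intro h hh
    induction hh with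
    | junta h S hc hsub hS =>
      have hg : Submod (fun X => h (X ∪ T0) - h T0) := by
        intro X Y
        have h4 := hsub (X ∪ T0) (Y ∪ T0)
        have h5 : (X ∪ T0) ∪ (Y ∪ T0) = (X ∪ Y) ∪ T0 := by
          ext x; simp only [Set.mem_union]; tauto
        have h6 : (X ∪ T0) ∩ (Y ∪ T0) = (X ∩ Y) ∪ T0 := by
          ext x; simp only [Set.mem_union, Set.mem_inter_iff]; tauto
        rw [h5, h6] at h4
        linarith
      have h0 : (fun X => h (X ∪ T0) - h T0) ∅ = 0 := by simp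
      have hgS : ∀ X, (fun X => h (X ∪ T0) - h T0) X = (fun X => h (X ∪ T0) - h T0) (X ∩ ↑S) := by
        intro X
        beta_reduce
        rw [hS (X ∪ T0), hS ((X ∩ ↑S) ∪ T0)]
        congr 2
        ext x
        simp only [Set.mem_union, Set.mem_inter_iff]
        tauto
      have h4 := junta_ineq Λ D L hD hDL hDL' hLL m c hm1 hm2 hg h0 S hc hgS (N := N) hN.ge
      unfold levelSum at h4
      have hDu : ∀ v, D v ∪ T0 = μ {v} := fun v => Set.sdiff_union_of_subset (hT0sub _)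
      have hLu : ∀ l, L l ∪ T0 = μ (↑l : Set V) := fun l => Set.sdiff_union_of_subset (hT0sub _)
      simp only [hDu, hLu] at h4
      exact h4
    | add f g _ _ ih1 ih2 =>
      have e1 : ∀ (A B : Set E), (f A + g A) - (f B + g B) = (f A - f B) + (g A - g B) := by
        intro A B; ring
      simp only [e1, Finset.sum_add_distrib, mul_add]
      linarith
  have h4 := hΦ f hf
  have hfT0 : f T0 = 0 := by
    apply le_antisymm
    · have := hμ2 ∅
      rw [rk_empty, ← hT0] at this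
      exact this
    · exact (rk_nonneg M _).trans (h1 T0)
  have hfv : ∀ v, f (μ {v}) = 1 := by
    intro v
    apply le_antisymm
    · have := hμ2 {v}
      rwa [r1] at this
    · have := h1 (μ {v})
      rwa [hμ1, r1] at this
  have hfl : ∀ l ∈ Λ, f (μ (↑l : Set V)) = 2 := by
    intro l hl
    apply le_antisymm
    · have := hμ2 (↑l : Set V)
      rwa [rl l hl] at this
    · have := h1 (μ (↑l : Set V))
      rwa [hμ1, rl l hl] at this
  have e1 : ∑ l ∈ Λ, ∑ v ∈ l, (f (μ {v}) - f T0) = 3 * Λ.card := by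
    have : ∀ l ∈ Λ, ∑ v ∈ l, (f (μ {v}) - f T0) = 3 := by
      intro l hl
      simp [hfv, hfT0, h3 l hl]
    rw [Finset.sum_congr rfl this, Finset.sum_const, nsmul_eq_mul, mul_comm]
  have e2 : 0 ≤ ∑ t ∈ Finset.range N, (f ({x | t + 1 ≤ m x} ∪ T0) - f T0) := by
    apply Finset.sum_nonneg
    intro t _
    rw [hfT0, sub_zero]
    exact (rk_nonneg M _).trans (h1 _)
  have e3 : ∑ l ∈ Λ, (f (μ (↑l : Set V)) - f T0) = 2 * Λ.card := by
    have : ∀ l ∈ Λ, (f (μ (↑l : Set V)) - f T0) = 2 := by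
      intro l hl
      rw [hfl l hl, hfT0, sub_zero]
    rw [Finset.sum_congr rfl this, Finset.sum_const, nsmul_eq_mul, mul_comm]
  have e4 : ∑ v, (f (μ {v}) - f T0) = Fintype.card V := by
    simp [hfv, hfT0]
  rw [e1, e3, e4] at h4
  have h5 : (Λ.card : ℤ) ≤ c * Fintype.card V := by linarith
  exact_mod_cast h5

end Pool.Agent.Helper666.FinGen
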