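import Mathlib

/-!
# Complete classes of matroids, base orderability: definitions
-/

namespace Pool.Agent.Helper666.FinGen

/-- A class of matroids (on ground sets contained in types of `Type`). -/
abbrev MatClass : Type 1 := (α : Type) → Matroid α → Prop

/-- `M` and `N` are isomorphic: some bijection between the ground sets preserves and reflects
independence. -/
def Isomorphic {α β : Type} (M : Matroid α) (N : Matroid β) : Prop :=
  ∃ e : M.E ≃ N.E, ∀ I : Set M.E, M.Indep (Subtype.val '' I) ↔ N.Indep (Subtype.val '' (e '' I))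

/-- `N` is the truncation of `M` to rank `k`. -/
def IsTruncation {α : Type} (M : Matroid α) (k : ℕ) (N : Matroid α) : Prop :=
  (k : ℕ∞) ≤ M.eRank ∧ N.E = M.E ∧ ∀ I : Set α, N.Indep I ↔ (M.Indep I ∧ I.encard ≤ k)

/-- A directed path of `Γ`, as the list of its vertices: nonempty, no repeated vertex, an arc of
`Γ` from each vertex to the next. Length zero (one vertex) is allowed. -/
def IsPath {T : Type} (Γ : Digraph T) (p : List T) : Prop :=
  p ≠ [] ∧ p.Nodup ∧ p.IsChain Γ.Adj

/-- `X` is linked to `Y` in `Γ`: some set of pairwise vertex-disjoint directed paths has the set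
of start points `X` and the set of end points `Y`. -/
def Linked {T : Type} (Γ : Digraph T) (X Y : Set T) : Prop :=
  ∃ P : Set (List T), (∀ p ∈ P, IsPath Γ p) ∧ (∀ p ∈ P, ∀ q ∈ P, p ≠ q → p.Disjoint q) ∧
    {x | ∃ p ∈ P, p.head? = some x} = X ∧ {y | ∃ p ∈ P, p.getLast? = some y} = Y

/-- `N` is the matroid induced on `A` by the digraph `Γ` from the matroid `M₀` (whose ground set
is a subset of the vertex set `T`). -/
def IsInduced {T : Type} (Γ : Digraph T) (M₀ : Matroid T) (A : Set T) (N : Matroid T) : Prop :=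
  N.E = A ∧ ∀ X : Set T, N.Indep X ↔ (X ⊆ A ∧ ∃ Y : Set T, M₀.Indep Y ∧ Linked Γ X Y)

/-- Complete classes of finite matroids. -/
structure IsComplete (C : MatClass) : Prop where
  finite : ∀ {α : Type} (M : Matroid α), C α M → M.Finite
  iso : ∀ {α β : Type} (M : Matroid α) (N : Matroid β), C α M → Isomorphic M N → C β N
  restrict : ∀ {α : Type} (M : Matroid α) (A : Set α), C α M → A ⊆ M.E → C α (M.restrict A)
  contract : ∀ {α : Type} (M : Matroid α) (A : Set α), C α M → A ⊆ M.E → C α (M.contract A)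
  dual : ∀ {α : Type} (M : Matroid α), C α M → C α M.dual
  sum : ∀ {α β : Type} (M : Matroid α) (N : Matroid β), C α M → C β N → C (α ⊕ β) (M.sum N)
  truncate : ∀ {α : Type} (M N : Matroid α) (k : ℕ), C α M → IsTruncation M k N → C α N
  induce : ∀ {T : Type} [Finite T] (Γ : Digraph T) (M₀ : Matroid T) (A : Set T) (N : Matroid T),
    C T M₀ → IsInduced Γ M₀ A N → C T N

/-- The smallest complete class containing all the matroids `M i`. -/
def Generated {k : ℕ} {E : Fin k → Type} (M : ∀ i, Matroid (E i)) : MatClass := fun α N =>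
  ∀ C : MatClass, IsComplete C → (∀ i, C (E i) (M i)) → C α N

/-- `C` is generated, as a complete class, by finitely many finite matroids. -/
def FinitelyGenerated (C : MatClass) : Prop :=
  ∃ (k : ℕ) (E : Fin k → Type) (M : ∀ i, Matroid (E i)), (∀ i, (M i).Finite) ∧
    ∀ (α : Type) (N : Matroid α), C α N ↔ Generated M α N

/-- Strongly base-orderable (finite) matroids. -/
def SBO : MatClass := fun α M => M.Finite ∧ ∀ B₁ B₂ : Set α, M.IsBase B₁ → M.IsBase B₂ →
  ∃ φ : α → α, Set.BijOn φ B₁ B₂ ∧ ∀ X : Set α, X ⊆ B₁ → M.IsBase ((B₁ \ X) ∪ φ '' X)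

/-- Base-orderable (finite) matroids. -/
def BO : MatClass := fun α M => M.Finite ∧ ∀ B₁ B₂ : Set α, M.IsBase B₁ → M.IsBase B₂ →
  ∃ φ : α → α, Set.BijOn φ B₁ B₂ ∧ ∀ X : Set α, X ⊆ B₁ →
    (X.encard = 1 ∨ X.encard + 1 = M.eRank) → M.IsBase ((B₁ \ X) ∪ φ '' X)

end Pool.Agent.Helper666.FinGen
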