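import Pool.Agent.Helper666.FinGen.Rank

/-!
# Rank three matroids with many three-point lines that are strongly base-orderable
-/

namespace Pool.Agent.Helper666.FinGen

open Set

set_option linter.unusedSectionVars false

section Lines

variable {V : Type} [Fintype V] [DecidableEq V]

/-- The rank three matroid whose three element dependent sets are the members of `Λ`. -/
theorem exists_lineMatroid (Λ : Finset (Finset V)) (h3 : ∀ l ∈ Λ, l.card = 3)
    (hlin : ∀ l ∈ Λ, ∀ l' ∈ Λ, ∀ a b, a ≠ b → a ∈ l → b ∈ l → a ∈ l' → b ∈ l' → l = l') :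
    ∃ M : Matroid V, M.E = Set.univ ∧
      ∀ I : Finset V, M.Indep (↑I : Set V) ↔ (I.card ≤ 3 ∧ I ∉ Λ) := by
  have a1 : (∅ : Finset V).card ≤ 3 ∧ (∅ : Finset V) ∉ Λ := by
    refine ⟨by simp, fun h => ?_⟩
    have := h3 _ h
    simp at this
  have a2 : ∀ ⦃I J : Finset V⦄, (J.card ≤ 3 ∧ J ∉ Λ) → I ⊆ J → (I.card ≤ 3 ∧ I ∉ Λ) := by
    intro I J hJ hIJ
    have h1 := Finset.card_le_card hIJ
    refine ⟨h1.trans hJ.1, fun hI => ?_⟩
    have h2 := h3 _ hI
    have h4 : I = J := Finset.eq_of_subset_of_card_le hIJ (by omega)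
    exact hJ.2 (h4 ▸ hI)
  have a3 : ∀ ⦃I J : Finset V⦄, (I.card ≤ 3 ∧ I ∉ Λ) → (J.card ≤ 3 ∧ J ∉ Λ) → I.card < J.card →
      ∃ e ∈ J, e ∉ I ∧ ((insert e I).card ≤ 3 ∧ insert e I ∉ Λ) := by
    intro I J hI hJ hlt
    by_contra hcon
    push Not at hcon
    obtain ⟨e, he⟩ : ∃ e, e ∈ J \ I := by
      have : (J \ I).Nonempty := by
        rw [Finset.sdiff_nonempty]
        intro h
        have := Finset.card_le_card h
        omega
      exact this
    rw [Finset.mem_sdiff] at he
    have hins : ∀ x ∈ J, x ∉ I → insert x I ∈ Λ := by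
      intro x hxJ hxI
      apply hcon x hxJ hxI
      rw [Finset.card_insert_of_notMem hxI]
      have := hJ.1
      omega
    have h1 := hins e he.1 he.2
    have h2 := h3 _ h1
    rw [Finset.card_insert_of_notMem he.2] at h2
    obtain ⟨a, b, hab, hIab⟩ := Finset.card_eq_two.mp (by omega : I.card = 2)
    have h4 : J ⊆ insert e I := by
      intro x hx
      by_cases hxI : x ∈ I
      · exact Finset.mem_insert_of_mem hxI
      · have h5 := hins x hx hxI
        have h6 := hlin _ h1 _ h5 a b hab (by simp [hIab]) (by simp [hIab]) (by simp [hIab])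
          (by simp [hIab])
        rw [h6]
        exact Finset.mem_insert_self _ _
    have h5 : J = insert e I := Finset.eq_of_subset_of_card_le h4 (by
      rw [Finset.card_insert_of_notMem he.2]
      omega)
    exact hJ.2 (h5 ▸ h1)
  have a4 : ∀ ⦃I : Finset V⦄, (I.card ≤ 3 ∧ I ∉ Λ) → (↑I : Set V) ⊆ Set.univ :=
    fun I _ => Set.subset_univ _
  exact ⟨(IndepMatroid.ofFinset Set.univ (fun I => I.card ≤ 3 ∧ I ∉ Λ) a1 a2 a3 a4).matroid, rfl,
    fun I => IndepMatroid.ofFinset_indep _ _ a1 a2 a3 a4⟩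

variable {Λ : Finset (Finset V)} {M : Matroid V}

theorem rk_finset (M : Matroid V) {I : Finset V} (h : M.Indep (↑I : Set V)) :
    rk M (↑I : Set V) = I.card := by
  rw [rk_indep M h, Set.ncard_coe_finset]

theorem line_rk_one (h3 : ∀ l ∈ Λ, l.card = 3)
    (hM : ∀ I : Finset V, M.Indep (↑I : Set V) ↔ (I.card ≤ 3 ∧ I ∉ Λ)) (v : V) :
    rk M {v} = 1 := by
  have h1 : M.Indep (↑({v} : Finset V) : Set V) := (hM _).mpr ⟨by simp, fun h => by
    have := h3 _ h
    simp at this⟩
  have := rk_finset M h1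
  simpa using this

theorem line_rk_two (h3 : ∀ l ∈ Λ, l.card = 3)
    (hM : ∀ I : Finset V, M.Indep (↑I : Set V) ↔ (I.card ≤ 3 ∧ I ∉ Λ)) (u v : V) (huv : u ≠ v) :
    rk M {u, v} = 2 := by
  have h1 : M.Indep (↑({u, v} : Finset V) : Set V) := (hM _).mpr
    ⟨by rw [Finset.card_pair huv]; omega, fun h => by
      have := h3 _ h
      rw [Finset.card_pair huv] at this
      omega⟩
  have := rk_finset M h1
  rw [Finset.card_pair huv] at this
  simpa using this

theorem line_rk_line [M.Finite] (h3 : ∀ l ∈ Λ, l.card = 3)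
    (hM : ∀ I : Finset V, M.Indep (↑I : Set V) ↔ (I.card ≤ 3 ∧ I ∉ Λ)) (l : Finset V) (hl : l ∈ Λ) :
    rk M (↑l : Set V) = 2 := by
  obtain ⟨a, b, c, hab, hac, hbc, hl3⟩ := Finset.card_eq_three.mp (h3 l hl)
  apply le_antisymm
  · by_contra hcon
    push Not at hcon
    have h1 : M.Indep (↑l : Set V) := indep_of_ncard_le M (Set.toFinite _) (by
      rw [Set.ncard_coe_finset, h3 l hl]
      push_cast
      omega)
    exact ((hM l).mp h1).2 hl
  · rw [← line_rk_two h3 hM a b hab]
    apply rk_mono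
    intro x hx
    rw [hl3]
    simp only [Set.mem_insert_iff, Set.mem_singleton_iff] at hx
    simp only [Finset.coe_insert, Finset.coe_singleton, Set.mem_insert_iff, Set.mem_singleton_iff]
    tauto

theorem line_rk_insert [M.Finite] (h3 : ∀ l ∈ Λ, l.card = 3)
    (hlin : ∀ l ∈ Λ, ∀ l' ∈ Λ, ∀ a b, a ≠ b → a ∈ l → b ∈ l → a ∈ l' → b ∈ l' → l = l')
    (hM : ∀ I : Finset V, M.Indep (↑I : Set V) ↔ (I.card ≤ 3 ∧ I ∉ Λ)) (l : Finset V) (hl : l ∈ Λ)
    (v : V) (hv : v ∉ l) : 3 ≤ rk M ((↑l : Set V) ∪ {v}) := by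
  obtain ⟨a, b, c, hab, hac, hbc, hl3⟩ := Finset.card_eq_three.mp (h3 l hl)
  have ha : a ∈ l := by simp [hl3]
  have hb : b ∈ l := by simp [hl3]
  have hva : a ≠ v := fun h => hv (h ▸ ha)
  have hvb : b ≠ v := fun h => hv (h ▸ hb)
  have hcard : ({a, b, v} : Finset V).card = 3 := Finset.card_eq_three.mpr ⟨a, b, v, hab, hva, hvb, rfl⟩
  have h1 : M.Indep (↑({a, b, v} : Finset V) : Set V) := (hM _).mpr ⟨hcard.le, fun h => by
    have h4 := hlin _ hl _ h a b hab ha hb (by simp) (by simp)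
    exact hv (by rw [h4]; simp)⟩
  have h2 := rk_finset M h1
  rw [hcard] at h2
  rw [show (3 : ℤ) = rk M (↑({a, b, v} : Finset V) : Set V) by rw [h2]; rfl]
  apply rk_mono
  intro x hx
  simp only [Finset.coe_insert, Finset.coe_singleton, Set.mem_insert_iff,
    Set.mem_singleton_iff] at hx
  rcases hx with rfl | rfl | rfl
  · exact Or.inl (by exact_mod_cast ha)
  · exact Or.inl (by exact_mod_cast hb)
  · exact Or.inr rfl

theorem line_rk_lines [M.Finite] (h3 : ∀ l ∈ Λ, l.card = 3)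
    (hlin : ∀ l ∈ Λ, ∀ l' ∈ Λ, ∀ a b, a ≠ b → a ∈ l → b ∈ l → a ∈ l' → b ∈ l' → l = l')
    (hM : ∀ I : Finset V, M.Indep (↑I : Set V) ↔ (I.card ≤ 3 ∧ I ∉ Λ)) (l : Finset V) (hl : l ∈ Λ)
    (l' : Finset V) (hl' : l' ∈ Λ) (hne : l ≠ l') : 3 ≤ rk M ((↑l : Set V) ∪ ↑l') := by
  obtain ⟨v, hv, hvl⟩ : ∃ v ∈ l', v ∉ l := by
    by_contra hcon
    push Not at hcon
    have h4 : l' = l := Finset.eq_of_subset_of_card_le hcon (by rw [h3 l hl, h3 l' hl'])
    exact hne h4.symm
  refine (line_rk_insert h3 hlin hM l hl v hvl).trans ?_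
  apply rk_mono
  rintro x (hx | rfl)
  · exact Or.inl hx
  · exact Or.inr (by exact_mod_cast hv)

/-! ### bases -/

theorem line_isBase_iff [M.Finite]
    (hM : ∀ I : Finset V, M.Indep (↑I : Set V) ↔ (I.card ≤ 3 ∧ I ∉ Λ))
    (hex : ∃ I : Finset V, I.card = 3 ∧ I ∉ Λ) (B : Finset V) :
    M.IsBase (↑B : Set V) ↔ (B.card = 3 ∧ B ∉ Λ) := by
  have key : ∀ I : Finset V, I.card = 3 → I ∉ Λ → M.IsBase (↑I : Set V) := by
    intro I hI hIΛ
    have h1 : M.Indep (↑I : Set V) := (hM I).mpr ⟨hI.le, hIΛ⟩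
    obtain ⟨B₀, hB₀, hIB⟩ := h1.exists_isBase_superset
    obtain ⟨B₁, rfl⟩ : ∃ B₁ : Finset V, (↑B₁ : Set V) = B₀ := ⟨(Set.toFinite B₀).toFinset, by simp⟩
    have h2 := (hM B₁).mp hB₀.indep
    have h4 : I = B₁ := Finset.eq_of_subset_of_card_le (by exact_mod_cast hIB) (by omega)
    exact h4 ▸ hB₀
  constructor
  · intro hB
    have h1 := (hM B).mp hB.indep
    obtain ⟨I, hI, hIΛ⟩ := hex
    have h2 := (key I hI hIΛ).ncard_eq_ncard_of_isBase hB
    rw [Set.ncard_coe_finset, Set.ncard_coe_finset] at h2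
    exact ⟨by omega, h1.2⟩
  · rintro ⟨h1, h2⟩
    exact key B h1 h2

/-- a criterion for the exchange property of a pair of bases -/
theorem exchange_of (Base : Set V → Prop) (p0 p1 p2 q0 q1 q2 : V) (hp01 : p0 ≠ p1) (hp02 : p0 ≠ p2)
    (hp12 : p1 ≠ p2) (hq01 : q0 ≠ q1) (hq02 : q0 ≠ q2) (hq12 : q1 ≠ q2)
    (h : ∀ b0 b1 b2 : Bool, Base (↑({cond b0 q0 p0, cond b1 q1 p1, cond b2 q2 p2} : Finset V))) :
    ∃ φ : V → V, Set.BijOn φ (↑({p0, p1, p2} : Finset V)) (↑({q0, q1, q2} : Finset V)) ∧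
      ∀ X : Set V, X ⊆ (↑({p0, p1, p2} : Finset V)) →
        Base (((↑({p0, p1, p2} : Finset V) : Set V) \ X) ∪ φ '' X) := by
  classical
  let φ : V → V := fun x => if x = p0 then q0 else if x = p1 then q1 else q2
  have e0 : φ p0 = q0 := if_pos rfl
  have e1 : φ p1 = q1 := by
    change (if p1 = p0 then q0 else if p1 = p1 then q1 else q2) = q1
    rw [if_neg hp01.symm, if_pos rfl]
  have e2 : φ p2 = q2 := by
    change (if p2 = p0 then q0 else if p2 = p1 then q1 else q2) = q2
    rw [if_neg hp02.symm, if_neg hp12.symm]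
  refine ⟨φ, ⟨?_, ?_, ?_⟩, ?_⟩
  · intro x hx
    simp only [Finset.coe_insert, Finset.coe_singleton, Set.mem_insert_iff,
      Set.mem_singleton_iff] at hx ⊢
    rcases hx with rfl | rfl | rfl
    · exact Or.inl e0
    · exact Or.inr (Or.inl e1)
    · exact Or.inr (Or.inr e2)
  · intro x hx y hy hxy
    simp only [Finset.coe_insert, Finset.coe_singleton, Set.mem_insert_iff,
      Set.mem_singleton_iff] at hx hy
    rcases hx with rfl | rfl | rfl <;> rcases hy with rfl | rfl | rfl <;>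
      simp only [e0, e1, e2] at hxy <;> first | rfl | exact absurd hxy ‹_› | exact absurd hxy.symm ‹_›
  · intro y hy
    simp only [Finset.coe_insert, Finset.coe_singleton, Set.mem_insert_iff,
      Set.mem_singleton_iff] at hy
    rcases hy with rfl | rfl | rfl
    · exact ⟨p0, by simp, e0⟩
    · exact ⟨p1, by simp, e1⟩
    · exact ⟨p2, by simp, e2⟩
  · intro X hX
    have h1 := h (decide (p0 ∈ X)) (decide (p1 ∈ X)) (decide (p2 ∈ X))
    convert h1 using 1
    ext x
    simp only [Set.mem_union, Set.mem_sdiff, Finset.coe_insert, Finset.coe_singleton,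
      Set.mem_insert_iff, Set.mem_singleton_iff, Set.mem_image]
    constructor
    · rintro (⟨(rfl | rfl | rfl), hx⟩ | ⟨y, hy, rfl⟩)
      · left; simp [hx]
      · right; left; simp [hx]
      · right; right; simp [hx]
      · have := hX hy
        simp only [Finset.coe_insert, Finset.coe_singleton, Set.mem_insert_iff,
          Set.mem_singleton_iff] at this
        rcases this with rfl | rfl | rfl
        · left; simp [hy, e0]
        · right; left; simp [hy, e1]
        · right; right; simp [hy, e2]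
    · rintro (rfl | rfl | rfl)
      · by_cases h0 : p0 ∈ X
        · right; exact ⟨p0, h0, by simp [h0, e0]⟩
        · left; simp [h0]
      · by_cases h0 : p1 ∈ X
        · right; exact ⟨p1, h0, by simp [h0, e1]⟩
        · left; simp [h0]
      · by_cases h0 : p2 ∈ X
        · right; exact ⟨p2, h0, by simp [h0, e2]⟩
        · left; simp [h0]

end Lines

/-- a three by three array of marks without a full row, a full column or a full two by two
subarray has an unmarked transversal -/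
theorem bool_matching : ∀ a00 a01 a02 a10 a11 a12 a20 a21 a22 : Bool,
    ((a00 && a01 && a02) || (a10 && a11 && a12) || (a20 && a21 && a22) ||
    (a00 && a10 && a20) || (a01 && a11 && a21) || (a02 && a12 && a22) ||
    (a00 && a01 && a10 && a11) || (a00 && a02 && a10 && a12) ||
    (a01 && a02 && a11 && a12) || (a00 && a01 && a20 && a21) ||
    (a00 && a02 && a20 && a22) || (a01 && a02 && a21 && a22) ||
    (a10 && a11 && a20 && a21) || (a10 && a12 && a20 && a22) ||
    (a11 && a12 && a21 && a22) ||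
    (!a00 && !a11 && !a22) || (!a00 && !a12 && !a21) ||
    (!a01 && !a10 && !a22) || (!a01 && !a12 && !a20) ||
    (!a02 && !a10 && !a21) || (!a02 && !a11 && !a20)) = true := by
  decide

end Pool.Agent.Helper666.FinGen
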