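import Pool.Agent.Helper666.FinGen.Rank

/-!
# Rank functions expressible by submodular functions of bounded arity
-/

namespace Pool.Agent.Helper666.FinGen

open Set

/-- submodular set functions -/
def Submod {E : Type} (f : Set E → ℤ) : Prop := ∀ X Y, f (X ∪ Y) + f (X ∩ Y) ≤ f X + f Y

/-- finite sums of submodular functions of at most `c` elements -/
inductive Dec (c : ℕ) {E : Type} : (Set E → ℤ) → Prop
  | junta (h : Set E → ℤ) (S : Finset E) (hc : S.card ≤ c) (hsub : Submod h)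
      (hS : ∀ X, h X = h (X ∩ ↑S)) : Dec c h
  | add (f g : Set E → ℤ) (hf : Dec c f) (hg : Dec c g) : Dec c (fun X => f X + g X)

section Dec

variable {E E' : Type} {c : ℕ}

theorem Dec.const (K : ℤ) : Dec c (fun _ : Set E => K) :=
  Dec.junta _ ∅ (Nat.zero_le _) (fun _ _ => le_rfl) (fun _ => rfl)

theorem Dec.sum {ι : Type} (s : Finset ι) (F : ι → Set E → ℤ) (h : ∀ i ∈ s, Dec c (F i)) :
    Dec c (fun X => ∑ i ∈ s, F i X) := by
  classical
  induction s using Finset.induction_on with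
  | empty => simpa using Dec.const 0
  | insert a s ha ih =>
    have h1 : (fun X => ∑ i ∈ insert a s, F i X) = fun X => F a X + ∑ i ∈ s, F i X := by
      funext X
      rw [Finset.sum_insert ha]
    rw [h1]
    exact Dec.add _ _ (h a (Finset.mem_insert_self _ _))
      (ih fun i hi => h i (Finset.mem_insert_of_mem hi))

theorem Dec.preimage {f : Set E → ℤ} (hf : Dec c f) (g : E → E') :
    Dec c (fun X : Set E' => f (g ⁻¹' X)) := by
  classical
  induction hf with
  | junta h S hc hsub hS =>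
    refine Dec.junta _ (S.image g) (Finset.card_image_le.trans hc) ?_ ?_
    · intro X Y
      have := hsub (g ⁻¹' X) (g ⁻¹' Y)
      rwa [← Set.preimage_union, ← Set.preimage_inter] at this
    · intro X
      rw [hS (g ⁻¹' X), hS (g ⁻¹' (X ∩ ↑(S.image g)))]
      congr 1
      ext x
      simp only [Set.mem_inter_iff, Set.mem_preimage, Finset.mem_coe, Finset.mem_image]
      constructor
      · rintro ⟨h1, h2⟩
        exact ⟨⟨h1, x, h2, rfl⟩, h2⟩
      · rintro ⟨⟨h1, _⟩, h2⟩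
        exact ⟨h1, h2⟩
  | add f g' _ _ ih1 ih2 => exact Dec.add _ _ ih1 ih2

theorem Dec.compl {f : Set E → ℤ} (hf : Dec c f) : Dec c (fun X : Set E => f Xᶜ) := by
  induction hf with
  | junta h S hc hsub hS =>
    refine Dec.junta _ S hc ?_ ?_
    · intro X Y
      have := hsub Xᶜ Yᶜ
      rw [← Set.compl_inter, ← Set.compl_union] at this
      linarith
    · intro X
      rw [hS Xᶜ, hS (X ∩ ↑S)ᶜ]
      congr 1
      ext x
      simp only [Set.mem_inter_iff, Set.mem_compl_iff, Finset.mem_coe]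
      tauto
  | add f g _ _ ih1 ih2 => exact Dec.add _ _ ih1 ih2

open Classical in
/-- a weighted directed cut -/
noncomputable def cutF (K : ℤ) (p q : E) (X : Set E) : ℤ := if p ∈ X ∧ q ∉ X then K else 0

open Classical in
/-- a weight on one element -/
noncomputable def linF (K : ℤ) (p : E) (X : Set E) : ℤ := if p ∈ X then K else 0

theorem cutF_nonneg {K : ℤ} (hK : 0 ≤ K) (p q : E) (X : Set E) : 0 ≤ cutF K p q X := by
  unfold cutF; split_ifs <;> simp [hK]

theorem Dec.cut (hc : 2 ≤ c) {K : ℤ} (hK : 0 ≤ K) (p q : E) : Dec c (cutF K p q) := by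
  classical
  refine Dec.junta _ {p, q} (Finset.card_le_two.trans hc) ?_ ?_
  · intro X Y
    unfold cutF
    by_cases h1 : p ∈ X <;> by_cases h2 : p ∈ Y <;> by_cases h3 : q ∈ X <;> by_cases h4 : q ∈ Y <;>
      simp [h1, h2, h3, h4, hK]
  · intro X
    unfold cutF
    simp

theorem Dec.lin (hc : 1 ≤ c) (K : ℤ) (p : E) : Dec c (linF K p) := by
  classical
  refine Dec.junta _ {p} (by simpa using hc) ?_ ?_
  · intro X Y
    unfold linF
    by_cases h1 : p ∈ X <;> by_cases h2 : p ∈ Y <;> simp [h1, h2]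
  · intro X
    unfold linF
    simp

end Dec

/-- the rank function of `M` is a partial minimisation of a sum of submodular functions of at most
`c` elements -/
def Expr (c : ℕ) {α : Type} (M : Matroid α) : Prop :=
  ∃ (E : Type) (_ : Finite E) (i : α → E) (f : Set E → ℤ), Dec c f ∧
    (∀ X : Set E, rk M (i ⁻¹' X) ≤ f X) ∧
    (∀ A ⊆ M.E, ∃ X : Set E, i ⁻¹' X ∩ M.E = A ∧ f X ≤ rk M A)

variable {α β : Type} {c : ℕ}

/-- matroids with at most `c` elements are expressible -/
theorem Expr.base (M : Matroid α) [M.Finite] (hc : M.E.ncard ≤ c) : Expr c M := by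
  classical
  have hfin : Finite M.E := M.ground_finite.to_subtype
  have := Fintype.ofFinite M.E
  let i : α → Option M.E := fun a => if h : a ∈ M.E then some ⟨a, h⟩ else none
  have hi : ∀ a (h : a ∈ M.E), i a = some ⟨a, h⟩ := fun a h => dif_pos h
  refine ⟨Option M.E, inferInstance, i, fun X => rk M (i ⁻¹' X), ?_, fun X => le_rfl, ?_⟩
  · refine Dec.junta _ (Finset.univ.image some) ?_ ?_ ?_
    · refine Finset.card_image_le.trans ?_
      rw [Finset.card_univ, ← Nat.card_eq_fintype_card]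
      exact hc
    · intro X Y
      simp only [Set.preimage_union, Set.preimage_inter]
      exact rk_submod M _ _
    · intro X
      rw [← rk_inter_ground M (i ⁻¹' X), ← rk_inter_ground M (i ⁻¹' (X ∩ _))]
      congr 1
      ext a
      simp only [Set.mem_inter_iff, Set.mem_preimage, Finset.coe_image, Finset.coe_univ,
        Set.image_univ, Set.mem_range]
      constructor
      · rintro ⟨h1, h2⟩
        exact ⟨⟨h1, ⟨a, h2⟩, (hi a h2).symm⟩, h2⟩
      · rintro ⟨⟨h1, _⟩, h2⟩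
        exact ⟨h1, h2⟩
  · intro A hA
    have h1 : i ⁻¹' (i '' A) ∩ M.E = A := by
      ext a
      simp only [Set.mem_inter_iff, Set.mem_preimage, Set.mem_image]
      constructor
      · rintro ⟨⟨b, hb, hba⟩, ha⟩
        rw [hi b (hA hb), hi a ha] at hba
        have : b = a := congrArg Subtype.val (Option.some.inj hba)
        exact this ▸ hb
      · intro ha
        exact ⟨⟨a, ha, rfl⟩, hA ha⟩
    refine ⟨i '' A, h1, ?_⟩
    simp only
    rw [← rk_inter_ground M (i ⁻¹' (i '' A)), h1]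

theorem Expr.restrict {M : Matroid α} [M.Finite] (h : Expr c M) {A : Set α} (hA : A ⊆ M.E) :
    Expr c (M.restrict A) := by
  obtain ⟨E, hE, i, f, hf, h1, h2⟩ := h
  refine ⟨E, hE, i, f, hf, ?_, ?_⟩
  · intro X
    rw [rk_restrict]
    exact (rk_mono M Set.inter_subset_left).trans (h1 X)
  · intro B hB
    have hB' : B ⊆ A := hB
    obtain ⟨X, hX1, hX2⟩ := h2 B (hB'.trans hA)
    refine ⟨X, ?_, ?_⟩
    · change i ⁻¹' X ∩ A = B
      ext a
      constructor
      · rintro ⟨h3, h4⟩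
        rw [← hX1]
        exact ⟨h3, hA h4⟩
      · intro h3
        refine ⟨?_, hB' h3⟩
        rw [← hX1] at h3
        exact h3.1
    · rw [rk_restrict, Set.inter_eq_self_of_subset_left hB']
      exact hX2

theorem sum_lin_eq {E : Type} (V : Finset α) (i : α → E) (X : Set E) :
    ∑ v ∈ V, linF 1 (i v) X = ((i ⁻¹' X ∩ ↑V : Set α).ncard : ℤ) := by
  classical
  unfold linF
  rw [Finset.sum_boole]
  congr 1
  rw [← Set.ncard_coe_finset]
  congr 1
  ext a
  simp only [Finset.coe_filter, Set.mem_inter_iff, Set.mem_preimage, Finset.mem_coe,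
    Set.mem_ofPred_eq]
  tauto

theorem Expr.dual (hc : 1 ≤ c) {M : Matroid α} [M.Finite] (h : Expr c M) : Expr c M.dual := by
  classical
  obtain ⟨E, hE, i, f, hf, h1, h2⟩ := h
  obtain ⟨V, hV⟩ : ∃ V : Finset α, (↑V : Set α) = M.E := ⟨M.ground_finite.toFinset, by simp⟩
  refine ⟨E, hE, i, fun X => ((∑ v ∈ V, linF 1 (i v) X) + f Xᶜ) + (- rk M M.E), ?_, ?_, ?_⟩
  · exact Dec.add _ _ (Dec.add _ _ (Dec.sum V _ fun v _ => Dec.lin hc 1 (i v)) hf.compl)
      (Dec.const _)
  · intro X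
    beta_reduce
    rw [sum_lin_eq, hV, ← rk_inter_ground M.dual, M.dual_ground, rk_dual M Set.inter_subset_right]
    have h3 : rk M (M.E \ (i ⁻¹' X ∩ M.E)) ≤ rk M (i ⁻¹' Xᶜ) := by
      apply rk_mono
      intro a ha hX
      exact ha.2 ⟨hX, ha.1⟩
    have h4 := h1 Xᶜ
    linarith
  · intro A hA
    have hA' : A ⊆ M.E := hA
    obtain ⟨X, hX1, hX2⟩ := h2 (M.E \ A) Set.sdiff_subset
    have h3 : i ⁻¹' Xᶜ ∩ M.E = A := by
      ext a
      simp only [Set.preimage_compl, Set.mem_inter_iff, Set.mem_compl_iff, Set.mem_preimage]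
      constructor
      · rintro ⟨h3, h4⟩
        by_contra h5
        have h6 : a ∈ i ⁻¹' X ∩ M.E := by rw [hX1]; exact ⟨h4, h5⟩
        exact h3 h6.1
      · intro h3
        refine ⟨fun h4 => ?_, hA' h3⟩
        have h5 : a ∈ i ⁻¹' X ∩ M.E := ⟨h4, hA' h3⟩
        rw [hX1] at h5
        exact h5.2 h3
    refine ⟨Xᶜ, h3, ?_⟩
    beta_reduce
    rw [sum_lin_eq, hV, h3, rk_dual M hA', compl_compl]
    linarith

theorem Expr.contract (hc : 1 ≤ c) {M : Matroid α} [M.Finite] (h : Expr c M) {A : Set α} :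
    Expr c (M.contract A) := by
  have h1 := h.dual hc
  have h2 : Expr c (M.dual.restrict (M.dual.E \ A)) := h1.restrict Set.sdiff_subset
  have h3 : (M.dual.restrict (M.dual.E \ A)).Finite :=
    ⟨M.ground_finite.subset Set.sdiff_subset⟩
  exact h2.dual hc

theorem Expr.directSum {M : Matroid α} {N : Matroid β} [M.Finite] [N.Finite] (hM : Expr c M)
    (hN : Expr c N) : Expr c (M.sum N) := by
  obtain ⟨E₁, hE₁, i₁, f₁, hf₁, h1, h2⟩ := hM
  obtain ⟨E₂, hE₂, i₂, f₂, hf₂, h3, h4⟩ := hN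
  refine ⟨E₁ ⊕ E₂, inferInstance, Sum.map i₁ i₂, fun X => f₁ (Sum.inl ⁻¹' X) + f₂ (Sum.inr ⁻¹' X),
    Dec.add _ _ (hf₁.preimage _) (hf₂.preimage _), ?_, ?_⟩
  · intro X
    rw [rk_sum]
    exact add_le_add (h1 (Sum.inl ⁻¹' X)) (h3 (Sum.inr ⁻¹' X))
  · intro A hA
    rw [Matroid.sum_ground] at hA
    obtain ⟨X₁, hX1, hX2⟩ := h2 (Sum.inl ⁻¹' A) (by
      intro a ha
      rcases hA ha with ⟨b, hb, hab⟩ | ⟨b, hb, hab⟩
      · exact (Sum.inl.inj hab) ▸ hb
      · exact absurd hab (by simp))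
    obtain ⟨X₂, hX3, hX4⟩ := h4 (Sum.inr ⁻¹' A) (by
      intro a ha
      rcases hA ha with ⟨b, hb, hab⟩ | ⟨b, hb, hab⟩
      · exact absurd hab (by simp)
      · exact (Sum.inr.inj hab) ▸ hb)
    have e1 : (Sum.inl ⁻¹' (Sum.inl '' X₁ ∪ Sum.inr '' X₂ : Set (E₁ ⊕ E₂)) : Set E₁) = X₁ := by
      ext x; simp
    have e2 : (Sum.inr ⁻¹' (Sum.inl '' X₁ ∪ Sum.inr '' X₂ : Set (E₁ ⊕ E₂)) : Set E₂) = X₂ := by
      ext x; simp
    refine ⟨Sum.inl '' X₁ ∪ Sum.inr '' X₂, ?_, ?_⟩
    · rw [Matroid.sum_ground]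
      ext a
      rcases a with a | a
      · have h5 : a ∈ i₁ ⁻¹' X₁ ∩ M.E ↔ a ∈ (Sum.inl ⁻¹' A : Set α) := by rw [hX1]
        simp only [Set.mem_inter_iff, Set.mem_preimage] at h5
        simp [h5]
      · have h5 : a ∈ i₂ ⁻¹' X₂ ∩ N.E ↔ a ∈ (Sum.inr ⁻¹' A : Set β) := by rw [hX3]
        simp only [Set.mem_inter_iff, Set.mem_preimage] at h5
        simp [h5]
    · simp only
      rw [e1, e2, rk_sum]
      exact add_le_add hX2 hX4

/-! ### isomorphism -/

theorem rk_iso_le {M : Matroid α} {N : Matroid β} [M.Finite] [N.Finite] (e : M.E ≃ N.E)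
    (he : ∀ I : Set M.E, M.Indep (Subtype.val '' I) ↔ N.Indep (Subtype.val '' (e '' I)))
    (B : Set β) : rk N B ≤ rk M {a | ∃ h : a ∈ M.E, (e ⟨a, h⟩ : β) ∈ B} := by
  obtain ⟨I, hI, hi, hr⟩ := exists_indep N B
  set J : Set M.E := e ⁻¹' (Subtype.val ⁻¹' I) with hJ
  have h1 : Subtype.val '' (e '' J) = I := by
    rw [hJ, e.image_preimage, Subtype.image_preimage_coe,
      Set.inter_eq_self_of_subset_right hi.subset_ground]
  have h2 : M.Indep (Subtype.val '' J) := by
    rw [he, h1]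
    exact hi
  have h3 : (Subtype.val '' J).ncard = I.ncard := by
    rw [← h1, Set.ncard_image_of_injective _ Subtype.val_injective,
      Set.ncard_image_of_injective _ Subtype.val_injective, Set.ncard_image_of_injective _ e.injective]
  rw [← hr, ← h3]
  apply ncard_le_rk M h2
  rintro _ ⟨a, ha, rfl⟩
  exact ⟨a.2, hI ha⟩

theorem rk_iso {M : Matroid α} {N : Matroid β} [M.Finite] [N.Finite] (e : M.E ≃ N.E)
    (he : ∀ I : Set M.E, M.Indep (Subtype.val '' I) ↔ N.Indep (Subtype.val '' (e '' I)))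
    (B : Set β) : rk N B = rk M {a | ∃ h : a ∈ M.E, (e ⟨a, h⟩ : β) ∈ B} := by
  apply le_antisymm (rk_iso_le e he B)
  have he' : ∀ I : Set N.E, N.Indep (Subtype.val '' I) ↔ M.Indep (Subtype.val '' (e.symm '' I)) := by
    intro I
    rw [he, e.image_symm_image]
  refine (rk_iso_le e.symm he' _).trans (rk_mono N ?_)
  rintro b ⟨hb, h, h2⟩
  simpa using h2

theorem Expr.iso {M : Matroid α} {N : Matroid β} [M.Finite] [N.Finite] (hM : Expr c M)
    (h : Isomorphic M N) : Expr c N := by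
  classical
  obtain ⟨e, he⟩ := h
  obtain ⟨E, hE, i, f, hf, h1, h2⟩ := hM
  let i' : β → Option E := fun b => if h : b ∈ N.E then some (i (e.symm ⟨b, h⟩)) else none
  have hi : ∀ b (h : b ∈ N.E), i' b = some (i (e.symm ⟨b, h⟩)) := fun b h => dif_pos h
  refine ⟨Option E, inferInstance, i', fun X => f (some ⁻¹' X), hf.preimage _, ?_, ?_⟩
  · intro X
    rw [rk_iso e he]
    refine (rk_mono M ?_).trans (h1 _)
    rintro a ⟨ha, h3⟩
    rw [Set.mem_preimage, hi _ (e ⟨a, ha⟩).2] at h3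
    simpa using h3
  · intro B hB
    obtain ⟨X, hX1, hX2⟩ := h2 {a | ∃ h : a ∈ M.E, (e ⟨a, h⟩ : β) ∈ B} (by
      rintro a ⟨ha, _⟩
      exact ha)
    refine ⟨some '' X, ?_, ?_⟩
    · ext b
      constructor
      · rintro ⟨h3, hb⟩
        rw [Set.mem_preimage, hi b hb] at h3
        obtain ⟨x, hx, hxe⟩ := h3
        rw [Option.some.inj hxe] at hx
        have h4 : ((e.symm ⟨b, hb⟩ : M.E) : α) ∈ i ⁻¹' X ∩ M.E := ⟨hx, (e.symm ⟨b, hb⟩).2⟩
        rw [hX1] at h4
        obtain ⟨_, h5⟩ := h4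
        simpa using h5
      · intro hb
        have hbE := hB hb
        have h4 : ((e.symm ⟨b, hbE⟩ : M.E) : α) ∈ i ⁻¹' X ∩ M.E := by
          rw [hX1]
          exact ⟨(e.symm ⟨b, hbE⟩).2, by simpa using hb⟩
        refine ⟨?_, hbE⟩
        rw [Set.mem_preimage, hi b hbE]
        exact ⟨_, h4.1, rfl⟩
    · simp only
      rw [Set.preimage_image_eq _ (Option.some_injective _), rk_iso e he]
      exact hX2

end Pool.Agent.Helper666.FinGen
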