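import Pool.Agent.Helper666.FinGen.Linking

/-!
# The rank function of an induced matroid
-/

namespace Pool.Agent.Helper666.FinGen

open Set

variable {T : Type}

theorem mem_nbhd {Γ : Digraph T} {Q : Set T} {x : T} :
    x ∈ nbhd Γ Q ↔ x ∈ Q ∨ ∃ v ∈ Q, Γ.Adj x v := Iff.rfl

/-- the cost of the cut `Q` -/
noncomputable def cost (Γ : Digraph T) (M₀ : Matroid T) (B Q : Set T) : ℤ :=
  (B ∩ Q).ncard + (nbhd Γ Q \ Q).ncard + rk M₀ (nbhd Γ Q)ᶜ

/-- the function `ρ(S) = |S| + r(Sᶜ)` -/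
noncomputable def rhoF (M₀ : Matroid T) (S : Set T) : ℤ := S.ncard + rk M₀ Sᶜ

theorem finite_matroid [Finite T] (M : Matroid T) : M.Finite := ⟨Set.toFinite _⟩

theorem rhoF_mono [Finite T] (M₀ : Matroid T) {S S' : Set T} (h : S ⊆ S') :
    rhoF M₀ S ≤ rhoF M₀ S' := by
  have := finite_matroid M₀
  unfold rhoF
  have h1 : Sᶜ = S'ᶜ ∪ (S' \ S) := by
    ext x
    simp only [Set.mem_compl_iff, Set.mem_union, Set.mem_sdiff]
    constructor
    · intro hx
      by_cases hx' : x ∈ S'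
      · exact Or.inr ⟨hx', hx⟩
      · exact Or.inl hx'
    · rintro (hx | hx)
      · exact fun hx' => hx (h hx')
      · exact hx.2
  have h2 := rk_union_le M₀ S'ᶜ (S' \ S) (Set.toFinite _)
  rw [← h1] at h2
  have h3 : (S' \ S).ncard + S.ncard = S'.ncard := Set.ncard_sdiff_add_ncard_of_subset h
  have h4 : ((S' \ S).ncard : ℤ) + S.ncard = S'.ncard := by exact_mod_cast h3
  linarith

theorem rhoF_submod [Finite T] (M₀ : Matroid T) (S S' : Set T) :
    rhoF M₀ (S ∪ S') + rhoF M₀ (S ∩ S') ≤ rhoF M₀ S + rhoF M₀ S' := by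
  have := finite_matroid M₀
  unfold rhoF
  have h1 := rk_submod M₀ Sᶜ S'ᶜ
  rw [← Set.compl_inter, ← Set.compl_union] at h1
  have h2 : (S ∪ S').ncard + (S ∩ S').ncard = S.ncard + S'.ncard :=
    Set.ncard_union_add_ncard_inter S S'
  have h3 : ((S ∪ S').ncard : ℤ) + (S ∩ S').ncard = S.ncard + S'.ncard := by exact_mod_cast h2
  linarith

theorem ncard_eq_sum [Fintype T] (S : Set T) [DecidablePred (· ∈ S)] :
    (S.ncard : ℤ) = ∑ t : T, if t ∈ S then 1 else 0 := by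
  rw [Finset.sum_boole, Set.ncard_eq_toFinset_card' S]
  congr 2
  ext x
  simp

theorem card_cross [Finite T] (B₁ B₂ Q₁ Q₂ : Set T) :
    (((B₁ ∪ B₂) ∩ (Q₁ ∩ Q₂)).ncard : ℤ) + ((B₁ ∩ B₂) ∩ (Q₁ ∪ Q₂)).ncard ≤
      (B₁ ∩ Q₁).ncard + (B₂ ∩ Q₂).ncard := by
  classical
  have := Fintype.ofFinite T
  rw [ncard_eq_sum, ncard_eq_sum, ncard_eq_sum, ncard_eq_sum, ← Finset.sum_add_distrib,
    ← Finset.sum_add_distrib]
  apply Finset.sum_le_sum
  intro t _
  by_cases h1 : t ∈ B₁ <;> by_cases h2 : t ∈ B₂ <;> by_cases h3 : t ∈ Q₁ <;> by_cases h4 : t ∈ Q₂ <;>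
    simp [h1, h2, h3, h4]

theorem cost_eq [Finite T] (Γ : Digraph T) (M₀ : Matroid T) (B Q : Set T) :
    cost Γ M₀ B Q = (B ∩ Q).ncard + rhoF M₀ (nbhd Γ Q) - Q.ncard := by
  unfold cost rhoF
  have h3 : (nbhd Γ Q \ Q).ncard + Q.ncard = (nbhd Γ Q).ncard :=
    Set.ncard_sdiff_add_ncard_of_subset (subset_nbhd Γ Q)
  have h4 : ((nbhd Γ Q \ Q).ncard : ℤ) + Q.ncard = (nbhd Γ Q).ncard := by exact_mod_cast h3
  linarith

theorem cost_cross [Finite T] (Γ : Digraph T) (M₀ : Matroid T) (B₁ B₂ Q₁ Q₂ : Set T) :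
    cost Γ M₀ (B₁ ∪ B₂) (Q₁ ∩ Q₂) + cost Γ M₀ (B₁ ∩ B₂) (Q₁ ∪ Q₂) ≤
      cost Γ M₀ B₁ Q₁ + cost Γ M₀ B₂ Q₂ := by
  rw [cost_eq, cost_eq, cost_eq, cost_eq]
  have h1 := card_cross B₁ B₂ Q₁ Q₂
  have h2 := rhoF_submod M₀ (nbhd Γ Q₁) (nbhd Γ Q₂)
  have h3 := rhoF_mono M₀ (nbhd_inter Γ Q₁ Q₂)
  rw [← nbhd_union] at h2
  have h4 : (Q₁ ∪ Q₂).ncard + (Q₁ ∩ Q₂).ncard = Q₁.ncard + Q₂.ncard :=
    Set.ncard_union_add_ncard_inter Q₁ Q₂
  have h5 : ((Q₁ ∪ Q₂).ncard : ℤ) + (Q₁ ∩ Q₂).ncard = Q₁.ncard + Q₂.ncard := by exact_mod_cast h4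
  linarith

theorem cost_mono [Finite T] (Γ : Digraph T) (M₀ : Matroid T) {B B' : Set T} (h : B ⊆ B')
    (Q : Set T) : cost Γ M₀ B Q ≤ cost Γ M₀ B' Q := by
  rw [cost_eq, cost_eq]
  have h1 : (B ∩ Q).ncard ≤ (B' ∩ Q).ncard :=
    Set.ncard_le_ncard (Set.inter_subset_inter_left _ h) (Set.toFinite _)
  have h2 : ((B ∩ Q).ncard : ℤ) ≤ (B' ∩ Q).ncard := by exact_mod_cast h1
  linarith

/-- weak duality -/
theorem rk_induced_le [Finite T] {Γ : Digraph T} {M₀ N : Matroid T} {A : Set T}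
    (h : IsInduced Γ M₀ A N) (B Q N' : Set T) (hN : nbhd Γ Q ⊆ N') :
    rk N B ≤ ((B ∩ A) ∩ Q).ncard + (N' \ Q).ncard + rk M₀ N'ᶜ := by
  have := finite_matroid M₀
  obtain ⟨I, hI, hi, hr⟩ := exists_indep N B
  obtain ⟨hIA, Y, hY, hL⟩ := (h.2 I).mp hi
  have h1 := linked_le Γ I Y hL Q N' hN
  have h2 : (I ∩ Q).ncard ≤ ((B ∩ A) ∩ Q).ncard :=
    Set.ncard_le_ncard (Set.inter_subset_inter_left _ (Set.subset_inter hI hIA)) (Set.toFinite _)
  have h3 : ((Y \ N').ncard : ℤ) ≤ rk M₀ N'ᶜ :=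
    ncard_le_rk M₀ (hY.subset Set.sdiff_subset) (fun x hx => hx.2)
  rw [← hr]
  have h4 : (I.ncard : ℤ) ≤ (I ∩ Q).ncard + (N' \ Q).ncard + (Y \ N').ncard := by exact_mod_cast h1
  have h5 : ((I ∩ Q).ncard : ℤ) ≤ ((B ∩ A) ∩ Q).ncard := by exact_mod_cast h2
  linarith

/-- strong duality, via Rado's theorem -/
theorem indep_induced [Finite T] {Γ : Digraph T} {M₀ N : Matroid T} {A : Set T}
    (h : IsInduced Γ M₀ A N) {X : Set T} (hXA : X ⊆ A)
    (hX : ∀ Q, (X.ncard : ℤ) ≤ cost Γ M₀ X Q) : N.Indep X := by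
  classical
  have := finite_matroid M₀
  have := Fintype.ofFinite T
  obtain ⟨k, hk⟩ : ∃ k : ℤ, k = (X.ncard : ℤ) := ⟨_, rfl⟩
  let ρ : Finset T → ℤ := fun S => S.card + min (rk M₀ (↑S : Set T)ᶜ) k - k
  have hcard : ∀ S, ρ S ≤ S.card := by
    intro S
    have := min_le_right (rk M₀ (↑S : Set T)ᶜ) k
    simp only [ρ]
    linarith
  have hmono : ∀ S S', S ⊆ S' → ρ S ≤ ρ S' := by
    intro S S' hS
    have h1 := rhoF_mono M₀ (S := (↑S : Set T)) (S' := (↑S' : Set T)) (by exact_mod_cast hS)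
    unfold rhoF at h1
    rw [Set.ncard_coe_finset, Set.ncard_coe_finset] at h1
    have h2 : (S.card : ℤ) ≤ S'.card := by exact_mod_cast Finset.card_le_card hS
    simp only [ρ]
    rcases le_total (rk M₀ (↑S : Set T)ᶜ) k with h3 | h3 <;>
      rcases le_total (rk M₀ (↑S' : Set T)ᶜ) k with h4 | h4
    · rw [min_eq_left h3, min_eq_left h4]; linarith
    · rw [min_eq_left h3, min_eq_right h4]; linarith
    · rw [min_eq_right h3, min_eq_left h4]; linarith
    · rw [min_eq_right h3, min_eq_right h4]; linarith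
  have hsub : ∀ S S', ρ (S ∪ S') + ρ (S ∩ S') ≤ ρ S + ρ S' := by
    intro S S'
    have h1 := rk_submod M₀ (↑S : Set T)ᶜ (↑S' : Set T)ᶜ
    rw [← Set.compl_inter, ← Set.compl_union] at h1
    have h2 : (S ∪ S').card + (S ∩ S').card = S.card + S'.card :=
      Finset.card_union_add_card_inter S S'
    have h3 : ((S ∪ S').card : ℤ) + (S ∩ S').card = S.card + S'.card := by exact_mod_cast h2
    have h4 : rk M₀ (↑S ∪ ↑S' : Set T)ᶜ ≤ rk M₀ (↑S : Set T)ᶜ :=
      rk_mono M₀ (Set.compl_subset_compl.mpr Set.subset_union_left)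
    have h5 : rk M₀ (↑S ∪ ↑S' : Set T)ᶜ ≤ rk M₀ (↑S' : Set T)ᶜ :=
      rk_mono M₀ (Set.compl_subset_compl.mpr Set.subset_union_right)
    simp only [ρ, Finset.coe_union, Finset.coe_inter]
    have h6 := min_le_left (rk M₀ (↑S ∪ ↑S' : Set T)ᶜ) k
    have h7 := min_le_right (rk M₀ (↑S ∩ ↑S' : Set T)ᶜ) k
    have h8 := min_le_left (rk M₀ (↑S ∩ ↑S' : Set T)ᶜ) k
    rcases le_total (rk M₀ (↑S : Set T)ᶜ) k with h9 | h9 <;>
      rcases le_total (rk M₀ (↑S' : Set T)ᶜ) k with h10 | h10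
    · rw [min_eq_left h9, min_eq_left h10]; linarith
    · rw [min_eq_left h9, min_eq_right h10]; linarith
    · rw [min_eq_right h9, min_eq_left h10]; linarith
    · rw [min_eq_right h9, min_eq_right h10]
      have h11 := min_le_right (rk M₀ (↑S ∪ ↑S' : Set T)ᶜ) k
      linarith
  let Γ' : {t : T // t ∉ X} → Finset T := fun t => (Set.toFinite (nbhd Γ {t.1})).toFinset
  have hΓ' : ∀ t x, x ∈ Γ' t ↔ (x = t.1 ∨ Γ.Adj x t.1) := by
    intro t x
    simp only [Γ', Set.Finite.mem_toFinset, mem_nbhd, Set.mem_singleton_iff, exists_eq_left]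
  have hQ : ∀ Q : Finset {t : T // t ∉ X}, (Q.card : ℤ) ≤ ρ (Q.biUnion Γ') := by
    intro Q
    set Q' : Set T := Subtype.val '' (↑Q : Set {t : T // t ∉ X}) with hQ'
    have h1 : (↑(Q.biUnion Γ') : Set T) = nbhd Γ Q' := by
      ext x
      rw [Finset.mem_coe, Finset.mem_biUnion, mem_nbhd]
      simp only [hΓ', hQ', Set.mem_image, Finset.mem_coe]
      constructor
      · rintro ⟨t, ht, (rfl | hv)⟩
        · exact Or.inl ⟨t, ht, rfl⟩
        · exact Or.inr ⟨t, ⟨t, ht, rfl⟩, hv⟩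
      · rintro (⟨t, ht, rfl⟩ | ⟨v, ⟨t, ht, rfl⟩, hv⟩)
        · exact ⟨t, ht, Or.inl rfl⟩
        · exact ⟨t, ht, Or.inr hv⟩
    have h2 : Q'.ncard = Q.card := by
      rw [hQ', Set.ncard_image_of_injective _ Subtype.val_injective, Set.ncard_coe_finset]
    have h3 : X ∩ Q' = ∅ := by
      ext x
      simp only [hQ', Set.mem_inter_iff, Set.mem_image, Set.mem_empty_iff_false, iff_false]
      rintro ⟨hx, t, _, rfl⟩
      exact t.2 hx
    have h4 := hX Q'
    rw [cost_eq, h3, h2] at h4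
    unfold rhoF at h4
    have h5 : (Q.biUnion Γ').card = (nbhd Γ Q').ncard := by
      rw [← h1, Set.ncard_coe_finset]
    have h6 : Q'.ncard ≤ (nbhd Γ Q').ncard :=
      Set.ncard_le_ncard (subset_nbhd Γ Q') (Set.toFinite _)
    simp only [ρ]
    rw [h1, h5]
    have h7 : (Q.card : ℤ) ≤ (nbhd Γ Q').ncard := by
      rw [← h2]; exact_mod_cast h6
    simp only [Set.ncard_empty] at h4
    push_cast at h4
    rcases le_total (rk M₀ (nbhd Γ Q')ᶜ) k with h8 | h8
    · rw [min_eq_left h8]; linarith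
    · rw [min_eq_right h8]; linarith
  obtain ⟨m, hinj, hm, hρ⟩ := rado ρ hmono hsub hcard Γ' hQ
  let m' : T → T := fun t => if ht : t ∉ X then m ⟨t, ht⟩ else t
  have hm' : ∀ t (ht : t ∉ X), m' t = m ⟨t, ht⟩ := fun t ht => dif_pos ht
  have himg : m' '' Xᶜ = (↑(Finset.univ.image m) : Set T) := by
    ext x
    simp only [Set.mem_image, Set.mem_compl_iff, Finset.coe_image, Finset.coe_univ, Set.image_univ,
      Set.mem_range]
    constructor
    · rintro ⟨t, ht, rfl⟩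
      exact ⟨⟨t, ht⟩, (hm' t ht).symm⟩
    · rintro ⟨t, rfl⟩
      exact ⟨t.1, t.2, hm' t.1 t.2⟩
  have hinj' : InjOn m' Xᶜ := by
    intro t ht t' ht' heq
    rw [hm' t ht, hm' t' ht'] at heq
    exact congrArg Subtype.val (hinj heq)
  refine (h.2 X).mpr ⟨hXA, (m' '' Xᶜ)ᶜ, ?_, ?_⟩
  · apply indep_of_ncard_le M₀ (Set.toFinite _)
    have h1 : (m' '' Xᶜ).ncard = (Xᶜ).ncard := Set.InjOn.ncard_image hinj'
    have h2 := Set.ncard_add_ncard_compl X
    have h3 := Set.ncard_add_ncard_compl (m' '' Xᶜ)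
    have h4 : ((m' '' Xᶜ)ᶜ).ncard = X.ncard := by omega
    rw [h4, ← hk]
    have h5 : Fintype.card {t : T // t ∉ X} = (Finset.univ.image m).card := by
      rw [Finset.card_image_of_injective _ hinj]
      rfl
    simp only [ρ] at hρ
    rw [← himg, h5] at hρ
    have h6 := min_le_left (rk M₀ (m' '' Xᶜ)ᶜ) k
    linarith
  · apply linked_of_map Γ X m' hinj'
    intro t ht
    rw [hm' t ht]
    have h1 := hm ⟨t, ht⟩
    rw [hΓ'] at h1
    exact h1

/-- the min-max formula: some cut attains the rank -/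
theorem exists_cut [Finite T] {Γ : Digraph T} {M₀ N : Matroid T} {A : Set T}
    (h : IsInduced Γ M₀ A N) {B : Set T} (hBA : B ⊆ A) : ∃ Q, cost Γ M₀ B Q ≤ rk N B := by
  classical
  have := finite_matroid N
  obtain ⟨X, hX⟩ := N.exists_isBasis B (by rw [h.1]; exact hBA)
  have hXr : (X.ncard : ℤ) = rk N B := by
    unfold rk
    rw [hX.eRk_eq_encard]
    rfl
  have hind : ∀ Q, (X.ncard : ℤ) ≤ cost Γ M₀ X Q := by
    intro Q
    have h1 := rk_induced_le h X Q (nbhd Γ Q) subset_rfl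
    rw [rk_indep N hX.indep] at h1
    have h2 : (X ∩ A ∩ Q).ncard ≤ (X ∩ Q).ncard :=
      Set.ncard_le_ncard (fun x hx => ⟨hx.1.1, hx.2⟩) (Set.toFinite _)
    have h3 : ((X ∩ A ∩ Q).ncard : ℤ) ≤ (X ∩ Q).ncard := by exact_mod_cast h2
    unfold cost
    linarith
  have key : ∀ S : Finset T, (↑S : Set T) ⊆ B → ∃ Q, cost Γ M₀ (X ∪ ↑S) Q ≤ X.ncard := by
    intro S
    induction S using Finset.induction_on with
    | empty =>
      intro _
      refine ⟨Set.univ, ?_⟩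
      simp only [Finset.coe_empty, Set.union_empty]
      unfold cost
      have h1 : nbhd Γ Set.univ = Set.univ := Set.eq_univ_of_univ_subset (subset_nbhd Γ _)
      rw [h1]
      simp [rk_empty]
    | insert b S hb ih =>
      intro hS
      rw [Finset.coe_insert, Set.insert_subset_iff] at hS
      obtain ⟨Q₁, hQ₁⟩ := ih hS.2
      by_cases hbX : b ∈ X
      · refine ⟨Q₁, ?_⟩
        have h1 : X ∪ ↑(insert b S) = X ∪ (↑S : Set T) := by
          ext x
          simp only [Finset.coe_insert, Set.mem_union, Set.mem_insert_iff]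
          constructor
          · rintro (h | rfl | h)
            · exact Or.inl h
            · exact Or.inl hbX
            · exact Or.inr h
          · rintro (h | h)
            · exact Or.inl h
            · exact Or.inr (Or.inr h)
        rw [h1]
        exact hQ₁
      · have hdep : ¬ N.Indep (insert b X) := by
          intro hi
          have h1 := hX.eq_of_subset_indep hi (Set.subset_insert _ _)
            (Set.insert_subset hS.1 hX.subset)
          exact hbX (h1 ▸ Set.mem_insert _ _)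
        have h2 : ∃ Q, cost Γ M₀ (insert b X) Q < (insert b X).ncard := by
          by_contra hcon
          push Not at hcon
          exact hdep (indep_induced h (Set.insert_subset (hBA hS.1) (hX.subset.trans hBA)) hcon)
        obtain ⟨Q₂, hQ₂⟩ := h2
        rw [Set.ncard_insert_of_notMem hbX (Set.toFinite _)] at hQ₂
        push_cast at hQ₂
        refine ⟨Q₁ ∩ Q₂, ?_⟩
        have h3 := cost_cross Γ M₀ (X ∪ ↑S) (insert b X) Q₁ Q₂
        have h4 : (X ∪ ↑S) ∪ (insert b X) = X ∪ ↑(insert b S) := by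
          ext x
          simp only [Finset.coe_insert, Set.mem_union, Set.mem_insert_iff]
          tauto
        rw [h4] at h3
        have h5 : cost Γ M₀ X (Q₁ ∪ Q₂) ≤ cost Γ M₀ ((X ∪ ↑S) ∩ (insert b X)) (Q₁ ∪ Q₂) :=
          cost_mono Γ M₀ (show X ⊆ (X ∪ ↑S) ∩ (insert b X) from
            fun x hx => ⟨Or.inl hx, Or.inr hx⟩) _
        have h6 := hind (Q₁ ∪ Q₂)
        linarith
  obtain ⟨Q, hQ⟩ := key (Set.toFinite B).toFinset (by simp)
  refine ⟨Q, ?_⟩
  rw [← hXr]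
  have h1 : X ∪ ↑(Set.toFinite B).toFinset = B := by
    rw [Set.Finite.coe_toFinset]
    exact Set.union_eq_self_of_subset_left hX.subset
  rw [h1] at hQ
  exact hQ

end Pool.Agent.Helper666.FinGen
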