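import Pool.Agent.Helper666.FinGen.Expr
import Pool.Agent.Helper666.FinGen.Induced

/-!
# Expressible matroids are closed under truncation and induction
-/

namespace Pool.Agent.Helper666.FinGen

open Set

variable {α β : Type} {c : ℕ}

theorem sum_cut_eq {E : Type} (V : Finset α) (p q : α → E) (X : Set E) :
    ∑ v ∈ V, cutF 1 (p v) (q v) X = (({v | p v ∈ X ∧ q v ∉ X} ∩ ↑V : Set α).ncard : ℤ) := by
  classical
  unfold cutF
  rw [Finset.sum_boole]
  congr 1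
  rw [← Set.ncard_coe_finset]
  congr 1
  ext a
  simp only [Finset.coe_filter, Set.mem_inter_iff, Finset.mem_coe, Set.mem_ofPred_eq]
  tauto

theorem rk_le_of_cover (M : Matroid α) [M.Finite] (A B : Set α) :
    rk M A ≤ rk M B + ((A \ B) ∩ M.E).ncard := by
  have h1 : (A \ B) ∩ M.E ⊆ M.E := Set.inter_subset_right
  have h2 := rk_union_le M B ((A \ B) ∩ M.E) (M.ground_finite.subset h1)
  refine le_trans ?_ h2
  rw [← rk_inter_ground M A]
  apply rk_mono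
  rintro x ⟨hx, hxE⟩
  by_cases hB : x ∈ B
  · exact Or.inl hB
  · exact Or.inr ⟨⟨hx, hB⟩, hxE⟩

theorem Expr.truncate (hc : 2 ≤ c) {M N : Matroid α} [M.Finite] (hM : Expr c M) {k : ℕ}
    (h : IsTruncation M k N) : Expr c N := by
  classical
  obtain ⟨E, hE, i, f, hf, h1, h2⟩ := hM
  obtain ⟨V, hV⟩ : ∃ V : Finset α, (↑V : Set α) = M.E := ⟨M.ground_finite.toFinset, by simp⟩
  let va : α → E ⊕ E ⊕ Unit := fun v => Sum.inl (i v)
  let vb : α → E ⊕ E ⊕ Unit := fun v => Sum.inr (Sum.inl (i v))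
  let z : E ⊕ E ⊕ Unit := Sum.inr (Sum.inr ())
  have hk : (k : ℤ) ≤ rk M M.E := by
    have h3 := h.1
    have := coe_toNat M M.E
    rw [← M.eRk_ground, ← this] at h3
    unfold rk
    exact_mod_cast h3
  refine ⟨E ⊕ E ⊕ Unit, inferInstance, va, fun X =>
    (f ((fun e : E => (Sum.inr (Sum.inl e) : E ⊕ E ⊕ Unit)) ⁻¹' X) +
      ∑ v ∈ V, cutF 1 (va v) (vb v) X) +
    (linF (k - rk M M.E) z X + ∑ v ∈ V, cutF 1 z (vb v) X), ?_, ?_, ?_⟩
  · refine Dec.add _ _ (Dec.add _ _ (hf.preimage _) (Dec.sum _ _ fun v _ => ?_))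
      (Dec.add _ _ (Dec.lin (by omega) _ _) (Dec.sum _ _ fun v _ => ?_))
    · exact Dec.cut hc (by norm_num) _ _
    · exact Dec.cut hc (by norm_num) _ _
  · intro X
    beta_reduce
    rw [rk_truncation h, sum_cut_eq, sum_cut_eq V (fun _ => z) vb, hV]
    have h3 := h1 ((fun e : E => (Sum.inr (Sum.inl e) : E ⊕ E ⊕ Unit)) ⁻¹' X)
    set b : Set α := i ⁻¹' ((fun e : E => (Sum.inr (Sum.inl e) : E ⊕ E ⊕ Unit)) ⁻¹' X) with hb
    have h4 : {v | va v ∈ X ∧ vb v ∉ X} = (va ⁻¹' X) \ b := rfl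
    rw [h4]
    by_cases hz : z ∈ X
    · have h5 : {v : α | z ∈ X ∧ vb v ∉ X} ∩ M.E = (M.E \ b) ∩ M.E := by
        ext v
        constructor
        · rintro ⟨⟨_, h6⟩, h7⟩
          exact ⟨⟨h7, h6⟩, h7⟩
        · rintro ⟨⟨_, h6⟩, h7⟩
          exact ⟨⟨hz, h6⟩, h7⟩
      rw [h5]
      have h6 := rk_le_of_cover M M.E b
      have h7 := min_le_right (rk M (va ⁻¹' X)) k
      unfold linF
      rw [if_pos hz]
      have h8 : (0 : ℤ) ≤ ((va ⁻¹' X \ b) ∩ M.E).ncard := by positivity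
      linarith
    · have h6 := rk_le_of_cover M (va ⁻¹' X) b
      have h7 := min_le_left (rk M (va ⁻¹' X)) k
      unfold linF
      rw [if_neg hz]
      have h8 : (0 : ℤ) ≤ ({v : α | z ∈ X ∧ vb v ∉ X} ∩ M.E).ncard := by positivity
      linarith
  · intro A hA
    rw [h.2.1] at hA ⊢
    obtain ⟨X₀, hX0, hX0'⟩ := h2 A hA
    rw [rk_truncation h]
    rcases le_total (rk M A) k with hle | hle
    · rw [min_eq_left hle]
      refine ⟨{x | Sum.elim (· ∈ X₀) (Sum.elim (· ∈ X₀) (fun _ => False)) x}, hX0, ?_⟩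
      beta_reduce
      rw [sum_cut_eq, sum_cut_eq V (fun _ => z) vb]
      have h3 : {v | va v ∈ {x | Sum.elim (· ∈ X₀) (Sum.elim (· ∈ X₀) (fun _ => False)) x} ∧
          vb v ∉ {x | Sum.elim (· ∈ X₀) (Sum.elim (· ∈ X₀) (fun _ => False)) x}} ∩ (↑V : Set α)
          = ∅ := by
        ext v
        simp only [Set.mem_inter_iff, Set.mem_empty_iff_false, iff_false]
        rintro ⟨⟨h4, h5⟩, _⟩
        exact h5 h4
      have h4 : {v : α | z ∈ {x | Sum.elim (· ∈ X₀) (Sum.elim (· ∈ X₀) (fun _ => False)) x} ∧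
          vb v ∉ {x | Sum.elim (· ∈ X₀) (Sum.elim (· ∈ X₀) (fun _ => False)) x}} ∩ (↑V : Set α)
          = ∅ := by
        ext v
        simp only [Set.mem_inter_iff, Set.mem_empty_iff_false, iff_false]
        rintro ⟨⟨h4, _⟩, _⟩
        exact h4
      have h5 : linF (k - rk M M.E) z
          {x | Sum.elim (· ∈ X₀) (Sum.elim (· ∈ X₀) (fun _ => False)) x} = 0 :=
        if_neg (fun h => h)
      rw [h3, h4, h5, Set.ncard_empty]
      simpa using hX0'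
    · rw [min_eq_right hle]
      obtain ⟨X₁, hX1, hX1'⟩ := h2 M.E subset_rfl
      have hX1'' : ∀ v ∈ M.E, i v ∈ X₁ := by
        intro v hv
        rw [← hX1] at hv
        exact hv.1
      refine ⟨{x | Sum.elim (· ∈ X₀) (Sum.elim (· ∈ X₁) (fun _ => True)) x}, hX0, ?_⟩
      beta_reduce
      rw [sum_cut_eq, sum_cut_eq V (fun _ => z) vb]
      have h3 : {v | va v ∈ {x | Sum.elim (· ∈ X₀) (Sum.elim (· ∈ X₁) (fun _ => True)) x} ∧
          vb v ∉ {x | Sum.elim (· ∈ X₀) (Sum.elim (· ∈ X₁) (fun _ => True)) x}} ∩ (↑V : Set α)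
          = ∅ := by
        ext v
        simp only [Set.mem_inter_iff, Set.mem_empty_iff_false, iff_false]
        rintro ⟨⟨_, h5⟩, h6⟩
        rw [hV] at h6
        exact h5 (hX1'' v h6)
      have h4 : {v : α | z ∈ {x | Sum.elim (· ∈ X₀) (Sum.elim (· ∈ X₁) (fun _ => True)) x} ∧
          vb v ∉ {x | Sum.elim (· ∈ X₀) (Sum.elim (· ∈ X₁) (fun _ => True)) x}} ∩ (↑V : Set α)
          = ∅ := by
        ext v
        simp only [Set.mem_inter_iff, Set.mem_empty_iff_false, iff_false]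
        rintro ⟨⟨_, h5⟩, h6⟩
        rw [hV] at h6
        exact h5 (hX1'' v h6)
      have h5 : linF (k - rk M M.E) z
          {x | Sum.elim (· ∈ X₀) (Sum.elim (· ∈ X₁) (fun _ => True)) x} = k - rk M M.E :=
        if_pos trivial
      rw [h3, h4, h5, Set.ncard_empty]
      have h6 : f ((fun e : E => (Sum.inr (Sum.inl e) : E ⊕ E ⊕ Unit)) ⁻¹'
          {x | Sum.elim (· ∈ X₀) (Sum.elim (· ∈ X₁) (fun _ => True)) x}) = f X₁ := rfl
      rw [h6]
      push_cast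
      linarith

theorem Expr.induce {T : Type} [Finite T] (hc : 2 ≤ c) {Γ : Digraph T} {M₀ N : Matroid T}
    {A : Set T} (hM : Expr c M₀) (h : IsInduced Γ M₀ A N) : Expr c N := by
  classical
  have := Fintype.ofFinite T
  have := finite_matroid M₀
  have := finite_matroid N
  obtain ⟨E, hE, i, f, hf, h1, h2⟩ := hM
  let va : T → T ⊕ T ⊕ T ⊕ E := fun v => Sum.inl v
  let vx : T → T ⊕ T ⊕ T ⊕ E := fun v => Sum.inr (Sum.inl v)
  let vy : T → T ⊕ T ⊕ T ⊕ E := fun v => Sum.inr (Sum.inr (Sum.inl v))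
  let vz : E → T ⊕ T ⊕ T ⊕ E := fun e => Sum.inr (Sum.inr (Sum.inr e))
  let FA : Finset T := (Set.toFinite A).toFinset
  let FV : Finset T := (Set.toFinite M₀.E).toFinset
  have hFA : (↑FA : Set T) = A := Set.Finite.coe_toFinset _
  have hFV : (↑FV : Set T) = M₀.E := Set.Finite.coe_toFinset _
  let arcs : Finset (T × T) := Finset.univ.filter fun w => w.1 ∈ nbhd Γ {w.2}
  have harcs : ∀ u v, (u, v) ∈ arcs ↔ u ∈ nbhd Γ {v} := by
    intro u v
    simp [arcs]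
  refine ⟨T ⊕ T ⊕ T ⊕ E, inferInstance, va, fun X =>
    ((∑ v ∈ FA, cutF 1 (va v) (vx v) X) + ∑ v ∈ (Finset.univ : Finset T), cutF 1 (vx v) (vy v) X) +
    ((∑ w ∈ arcs, cutF (Fintype.card T) (vy w.1) (vx w.2) X) +
      ((∑ v ∈ FV, cutF 1 (vy v) (vz (i v)) X) + f (vz ⁻¹' X))), ?_, ?_, ?_⟩
  · refine Dec.add _ _ (Dec.add _ _ (Dec.sum _ _ fun v _ => Dec.cut hc (by norm_num) _ _)
      (Dec.sum _ _ fun v _ => Dec.cut hc (by norm_num) _ _)) (Dec.add _ _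
      (Dec.sum _ (fun w : T × T => cutF (Fintype.card T) (vy w.1) (vx w.2))
        fun v _ => Dec.cut hc (by positivity) _ _)
      (Dec.add _ _ (Dec.sum _ _ fun v _ => Dec.cut hc (by norm_num) _ _) (hf.preimage vz)))
  · intro X
    beta_reduce
    rw [sum_cut_eq, sum_cut_eq, sum_cut_eq, hFA, hFV, Finset.coe_univ, Set.inter_univ]
    have h3 := h1 (vz ⁻¹' X)
    have h4 : 0 ≤ rk M₀ (i ⁻¹' (vz ⁻¹' X)) := rk_nonneg _ _
    by_cases hbad : ∃ u v, u ∈ nbhd Γ {v} ∧ vy u ∈ X ∧ vx v ∉ X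
    · obtain ⟨u, v, huv, hu, hv⟩ := hbad
      have h5 : cutF (Fintype.card T) (vy u) (vx v) X ≤
          ∑ w ∈ arcs, cutF (Fintype.card T) (vy w.1) (vx w.2) X :=
        Finset.single_le_sum (f := fun w : T × T => cutF (Fintype.card T) (vy w.1) (vx w.2) X)
          (fun w _ => cutF_nonneg (by positivity) _ _ _) ((harcs u v).mpr huv)
      have h6 : cutF (Fintype.card T) (vy u) (vx v) X = Fintype.card T := if_pos ⟨hu, hv⟩
      have h7 : rk N (va ⁻¹' X) ≤ Fintype.card T := by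
        refine (rk_le_ncard N (Set.toFinite _)).trans ?_
        have : (va ⁻¹' X).ncard ≤ Nat.card T := Set.ncard_le_card _
        rw [Nat.card_eq_fintype_card] at this
        exact_mod_cast this
      have h8 : (0 : ℤ) ≤ ({v | va v ∈ X ∧ vx v ∉ X} ∩ A).ncard := by positivity
      have h9 : (0 : ℤ) ≤ ({v | vx v ∈ X ∧ vy v ∉ X}).ncard := by positivity
      have h10 : (0 : ℤ) ≤ ({v | vy v ∈ X ∧ vz (i v) ∉ X} ∩ M₀.E).ncard := by positivity
      linarith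
    · push Not at hbad
      have hN : nbhd Γ (vx ⁻¹' X)ᶜ ⊆ (vy ⁻¹' X)ᶜ := by
        intro u hu hyu
        rw [mem_nbhd] at hu
        rcases hu with hu | ⟨v, hv, huv⟩
        · exact hu (hbad u u (Or.inl rfl) hyu)
        · exact hv (hbad u v (Or.inr ⟨v, rfl, huv⟩) hyu)
      have h5 := rk_induced_le h (va ⁻¹' X) (vx ⁻¹' X)ᶜ (vy ⁻¹' X)ᶜ hN
      have h6 : (va ⁻¹' X ∩ A) ∩ (vx ⁻¹' X)ᶜ = {v | va v ∈ X ∧ vx v ∉ X} ∩ A := by
        ext v
        constructor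
        · rintro ⟨⟨h6, h7⟩, h8⟩
          exact ⟨⟨h6, h8⟩, h7⟩
        · rintro ⟨⟨h6, h8⟩, h7⟩
          exact ⟨⟨h6, h7⟩, h8⟩
      have h7 : (vy ⁻¹' X)ᶜ \ (vx ⁻¹' X)ᶜ = {v | vx v ∈ X ∧ vy v ∉ X} := by
        ext v
        constructor
        · rintro ⟨h6, h7⟩
          exact ⟨not_not.mp h7, h6⟩
        · rintro ⟨h6, h7⟩
          exact ⟨h7, not_not.mpr h6⟩
      rw [h6, h7, compl_compl] at h5
      have h8 := rk_le_of_cover M₀ (vy ⁻¹' X) (i ⁻¹' (vz ⁻¹' X))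
      have h9 : (vy ⁻¹' X \ i ⁻¹' (vz ⁻¹' X)) ∩ M₀.E = {v | vy v ∈ X ∧ vz (i v) ∉ X} ∩ M₀.E := rfl
      rw [h9] at h8
      have h10 : 0 ≤ ∑ w ∈ arcs, cutF (Fintype.card T) (vy w.1) (vx w.2) X :=
        Finset.sum_nonneg (fun w _ => cutF_nonneg (by positivity) _ _ _)
      linarith
  · intro B hB
    rw [h.1] at hB
    obtain ⟨Q, hQ⟩ := exists_cut h hB
    obtain ⟨X₀, hX0, hX0'⟩ := h2 ((nbhd Γ Q)ᶜ ∩ M₀.E) Set.inter_subset_right
    rw [rk_inter_ground] at hX0'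
    refine ⟨{x | Sum.elim (· ∈ B) (Sum.elim (· ∉ Q) (Sum.elim (· ∉ nbhd Γ Q) (· ∈ X₀))) x}, ?_, ?_⟩
    · rw [h.1]
      exact Set.inter_eq_self_of_subset_left hB
    · set X : Set (T ⊕ T ⊕ T ⊕ E) :=
        {x | Sum.elim (· ∈ B) (Sum.elim (· ∉ Q) (Sum.elim (· ∉ nbhd Γ Q) (· ∈ X₀))) x} with hX
      have ma : ∀ v, va v ∈ X ↔ v ∈ B := fun v => Iff.rfl
      have mx : ∀ v, vx v ∈ X ↔ v ∉ Q := fun v => Iff.rfl
      have my : ∀ v, vy v ∈ X ↔ v ∉ nbhd Γ Q := fun v => Iff.rfl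
      have mz : ∀ e, vz e ∈ X ↔ e ∈ X₀ := fun v => Iff.rfl
      beta_reduce
      rw [sum_cut_eq, sum_cut_eq, sum_cut_eq, hFA, hFV, Finset.coe_univ, Set.inter_univ]
      have h3 : {v | va v ∈ X ∧ vx v ∉ X} ∩ A = B ∩ Q := by
        ext v
        simp only [ma, mx, not_not, Set.mem_inter_iff, Set.mem_ofPred_eq]
        exact ⟨fun hv => hv.1, fun hv => ⟨hv, hB hv.1⟩⟩
      have h4 : {v | vx v ∈ X ∧ vy v ∉ X} = nbhd Γ Q \ Q := by
        ext v
        simp only [my, mx, not_not, Set.mem_sdiff, Set.mem_ofPred_eq]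
        exact ⟨fun hv => ⟨hv.2, hv.1⟩, fun hv => ⟨hv.2, hv.1⟩⟩
      have h5 : {v | vy v ∈ X ∧ vz (i v) ∉ X} ∩ M₀.E = ∅ := by
        ext v
        simp only [my, mz, Set.mem_inter_iff, Set.mem_ofPred_eq, Set.mem_empty_iff_false, iff_false]
        rintro ⟨⟨h5, h6⟩, h7⟩
        have h8 : v ∈ i ⁻¹' X₀ ∩ M₀.E := by
          rw [hX0]
          exact ⟨h5, h7⟩
        exact h6 h8.1
      have h6 : ∑ w ∈ arcs, cutF (Fintype.card T) (vy w.1) (vx w.2) X = 0 := by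
        apply Finset.sum_eq_zero
        rintro ⟨u, v⟩ huv
        rw [harcs] at huv
        apply if_neg
        rintro ⟨h7, h8⟩
        rw [my] at h7
        rw [mx, not_not] at h8
        apply h7
        rw [mem_nbhd] at huv ⊢
        rcases huv with rfl | ⟨v', rfl, huv⟩
        · exact Or.inl h8
        · exact Or.inr ⟨v', h8, huv⟩
      have h7 : vz ⁻¹' X = X₀ := rfl
      rw [h3, h4, h5, h6, h7, Set.ncard_empty]
      unfold cost at hQ
      push_cast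
      linarith

end Pool.Agent.Helper666.FinGen
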