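import Pool.Agent.Helper666.FinGen.Example

/-!
# Sum-zero triples give strongly base-orderable matroids
-/

namespace Pool.Agent.Helper666.FinGen

open Set

set_option linter.unusedSectionVars false

variable {V : Type} [Fintype V] [DecidableEq V] {Λ : Finset (Finset V)} {M : Matroid V}

/-- the exchange property of two sets -/
def Exch (M : Matroid V) (B₁ B₂ : Set V) : Prop :=
  ∃ φ : V → V, Set.BijOn φ B₁ B₂ ∧ ∀ X : Set V, X ⊆ B₁ → M.IsBase ((B₁ \ X) ∪ φ '' X)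

theorem base_of_notMem [M.Finite]
    (hM : ∀ I : Finset V, M.Indep (↑I : Set V) ↔ (I.card ≤ 3 ∧ I ∉ Λ))
    (hex : ∃ I : Finset V, I.card = 3 ∧ I ∉ Λ) {a b c : V} (hab : a ≠ b) (hac : a ≠ c)
    (hbc : b ≠ c) (h : ({a, b, c} : Finset V) ∉ Λ) : M.IsBase (↑({a, b, c} : Finset V) : Set V) :=
  (line_isBase_iff hM hex _).mpr ⟨Finset.card_eq_three.mpr ⟨a, b, c, hab, hac, hbc, rfl⟩, h⟩

theorem sum_triple (w : V → ℤ) {a b c : V} (hab : a ≠ b) (hac : a ≠ c) (hbc : b ≠ c) :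
    ∑ v ∈ ({a, b, c} : Finset V), w v = w a + w b + w c := by
  rw [Finset.sum_insert (by simp [hab, hac]), Finset.sum_insert (by simp [hbc]),
    Finset.sum_singleton]
  ring

theorem base_of_sum [M.Finite]
    (hM : ∀ I : Finset V, M.Indep (↑I : Set V) ↔ (I.card ≤ 3 ∧ I ∉ Λ))
    (hex : ∃ I : Finset V, I.card = 3 ∧ I ∉ Λ) (w : V → ℤ) (hsum : ∀ l ∈ Λ, ∑ v ∈ l, w v = 0)
    {a b c : V} (hab : a ≠ b) (hac : a ≠ c) (hbc : b ≠ c) (h : w a + w b + w c ≠ 0) :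
    M.IsBase (↑({a, b, c} : Finset V) : Set V) := by
  apply base_of_notMem hM hex hab hac hbc
  intro hl
  apply h
  rw [← sum_triple w hab hac hbc]
  exact hsum _ hl

/-- disjoint bases, once a good matching is found -/
theorem exch_matched [M.Finite]
    (hM : ∀ I : Finset V, M.Indep (↑I : Set V) ↔ (I.card ≤ 3 ∧ I ∉ Λ))
    (hex : ∃ I : Finset V, I.card = 3 ∧ I ∉ Λ) (w : V → ℤ) (hsum : ∀ l ∈ Λ, ∑ v ∈ l, w v = 0)
    {B₁ B₂ : Finset V} (hB₁ : B₁ ∉ Λ) (hB₂ : B₂ ∉ Λ) (hd : Disjoint B₁ B₂)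
    {p0 p1 p2 q0 q1 q2 : V} (e₁ : B₁ = {p0, p1, p2}) (e₂ : B₂ = {q0, q1, q2})
    (hp01 : p0 ≠ p1) (hp02 : p0 ≠ p2)
    (hp12 : p1 ≠ p2) (hq01 : q0 ≠ q1) (hq02 : q0 ≠ q2) (hq12 : q1 ≠ q2) {s t : ℤ}
    (hs : s = w p0 + w p1 + w p2) (ht : t = w q0 + w q1 + w q2)
    (m0 : w q0 - w p0 ≠ -s ∧ w q0 - w p0 ≠ t) (m1 : w q1 - w p1 ≠ -s ∧ w q1 - w p1 ≠ t)
    (m2 : w q2 - w p2 ≠ -s ∧ w q2 - w p2 ≠ t) :
    Exch M (↑B₁ : Set V) (↑B₂ : Set V) := by
  have hne : ∀ x ∈ B₁, ∀ y ∈ B₂, x ≠ y := fun x hx y hy h =>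
    (Finset.disjoint_left.mp hd) hx (h ▸ hy)
  have P0 : p0 ∈ B₁ := by simp [e₁]
  have P1 : p1 ∈ B₁ := by simp [e₁]
  have P2 : p2 ∈ B₁ := by simp [e₁]
  have Q0 : q0 ∈ B₂ := by simp [e₂]
  have Q1 : q1 ∈ B₂ := by simp [e₂]
  have Q2 : q2 ∈ B₂ := by simp [e₂]
  rw [e₁, e₂]
  rw [e₁] at hB₁
  rw [e₂] at hB₂
  apply exchange_of M.IsBase p0 p1 p2 q0 q1 q2 hp01 hp02 hp12 hq01 hq02 hq12
  intro b0 b1 b2
  cases b0 <;> cases b1 <;> cases b2 <;> simp only [cond_true, cond_false]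
  · exact base_of_notMem hM hex hp01 hp02 hp12 hB₁
  · exact base_of_sum hM hex w hsum hp01 (hne _ P0 _ Q2) (hne _ P1 _ Q2) (by omega)
  · exact base_of_sum hM hex w hsum (hne _ P0 _ Q1) hp02 (hne _ P2 _ Q1).symm (by omega)
  · exact base_of_sum hM hex w hsum (hne _ P0 _ Q1) (hne _ P0 _ Q2) hq12 (by omega)
  · exact base_of_sum hM hex w hsum (hne _ P1 _ Q0).symm (hne _ P2 _ Q0).symm hp12 (by omega)
  · exact base_of_sum hM hex w hsum (hne _ P1 _ Q0).symm hq02 (hne _ P1 _ Q2) (by omega)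
  · exact base_of_sum hM hex w hsum hq01 (hne _ P2 _ Q0).symm (hne _ P2 _ Q1).symm (by omega)
  · exact base_of_notMem hM hex hq01 hq02 hq12 hB₂

/-- disjoint bases -/
theorem exch_disjoint [M.Finite]
    (hM : ∀ I : Finset V, M.Indep (↑I : Set V) ↔ (I.card ≤ 3 ∧ I ∉ Λ))
    (hex : ∃ I : Finset V, I.card = 3 ∧ I ∉ Λ) (w : V → ℤ) (hw : Function.Injective w)
    (hsum : ∀ l ∈ Λ, ∑ v ∈ l, w v = 0)
    {B₁ B₂ : Finset V} (hB₁ : B₁ ∉ Λ) (hB₂ : B₂ ∉ Λ) (hd : Disjoint B₁ B₂)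
    (h₁ : B₁.card = 3) (h₂ : B₂.card = 3) : Exch M (↑B₁ : Set V) (↑B₂ : Set V) := by
  obtain ⟨p0, p1, p2, hp01, hp02, hp12, e₁⟩ := Finset.card_eq_three.mp h₁
  obtain ⟨q0, q1, q2, hq01, hq02, hq12, e₂⟩ := Finset.card_eq_three.mp h₂
  have wp01 := hw.ne hp01
  have wp02 := hw.ne hp02
  have wp12 := hw.ne hp12
  have wq01 := hw.ne hq01
  have wq02 := hw.ne hq02
  have wq12 := hw.ne hq12
  obtain ⟨s, hs⟩ : ∃ s, s = w p0 + w p1 + w p2 := ⟨_, rfl⟩
  obtain ⟨t, ht⟩ : ∃ t, t = w q0 + w q1 + w q2 := ⟨_, rfl⟩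
  let F : V → V → Bool := fun p q => decide (w q - w p = -s ∨ w q - w p = t)
  have hF : ∀ p q, F p q = true ↔ (w q - w p = -s ∨ w q - w p = t) := fun p q => decide_eq_true_iff
  have hF' : ∀ p q, F p q = false ↔ ¬ (w q - w p = -s ∨ w q - w p = t) :=
    fun p q => decide_eq_false_iff_not
  have hb := bool_matching (F p0 q0) (F p0 q1) (F p0 q2) (F p1 q0) (F p1 q1) (F p1 q2)
    (F p2 q0) (F p2 q1) (F p2 q2)
  simp only [Bool.or_eq_true, Bool.and_eq_true, Bool.not_eq_true', hF, hF'] at hb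
  rcases hb with (((((((((((((((((((h | h) | h) | h) | h) | h) | h) | h) | h) | h) | h) | h) | h) |
    h) | h) | h) | h) | h) | h) | h) | h
  · exfalso; omega
  · exfalso; omega
  · exfalso; omega
  · exfalso; omega
  · exfalso; omega
  · exfalso; omega
  · exfalso; omega
  · exfalso; omega
  · exfalso; omega
  · exfalso; omega
  · exfalso; omega
  · exfalso; omega
  · exfalso; omega
  · exfalso; omega
  · exfalso; omega
  · exact exch_matched hM hex w hsum hB₁ hB₂ hd e₁ e₂ hp01 hp02 hp12 hq01 hq02 hq12 hs ht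
      (by omega) (by omega) (by omega)
  · have e₃ : B₂ = {q0, q2, q1} := by rw [e₂]; ext x; simp only [Finset.mem_insert, Finset.mem_singleton]; tauto
    exact exch_matched hM hex w hsum hB₁ hB₂ hd e₁ e₃ hp01 hp02 hp12 hq02 hq01 hq12.symm hs
      (t := t) (by omega) (by omega) (by omega) (by omega)
  · have e₃ : B₂ = {q1, q0, q2} := by rw [e₂]; ext x; simp only [Finset.mem_insert, Finset.mem_singleton]; tauto
    exact exch_matched hM hex w hsum hB₁ hB₂ hd e₁ e₃ hp01 hp02 hp12 hq01.symm hq12 hq02 hs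
      (t := t) (by omega) (by omega) (by omega) (by omega)
  · have e₃ : B₂ = {q1, q2, q0} := by rw [e₂]; ext x; simp only [Finset.mem_insert, Finset.mem_singleton]; tauto
    exact exch_matched hM hex w hsum hB₁ hB₂ hd e₁ e₃ hp01 hp02 hp12 hq12 hq01.symm hq02.symm hs
      (t := t) (by omega) (by omega) (by omega) (by omega)
  · have e₃ : B₂ = {q2, q0, q1} := by rw [e₂]; ext x; simp only [Finset.mem_insert, Finset.mem_singleton]; tauto
    exact exch_matched hM hex w hsum hB₁ hB₂ hd e₁ e₃ hp01 hp02 hp12 hq02.symm hq12.symm hq01 hs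
      (t := t) (by omega) (by omega) (by omega) (by omega)
  · have e₃ : B₂ = {q2, q1, q0} := by rw [e₂]; ext x; simp only [Finset.mem_insert, Finset.mem_singleton]; tauto
    exact exch_matched hM hex w hsum hB₁ hB₂ hd e₁ e₃ hp01 hp02 hp12 hq12.symm hq02.symm hq01.symm hs
      (t := t) (by omega) (by omega) (by omega) (by omega)

/-- two bases with one common element, once a good matching is found -/
theorem exch_one_aux [M.Finite]
    (hM : ∀ I : Finset V, M.Indep (↑I : Set V) ↔ (I.card ≤ 3 ∧ I ∉ Λ))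
    (hex : ∃ I : Finset V, I.card = 3 ∧ I ∉ Λ) {a p1 p2 q1 q2 : V}
    (hB₁ : ({a, p1, p2} : Finset V) ∉ Λ) (hB₂ : ({a, q1, q2} : Finset V) ∉ Λ)
    (hap1 : a ≠ p1) (hap2 : a ≠ p2) (hp12 : p1 ≠ p2) (haq1 : a ≠ q1) (haq2 : a ≠ q2)
    (hq12 : q1 ≠ q2) (h11 : p1 ≠ q1) (h12 : p1 ≠ q2) (h21 : p2 ≠ q1) (h22 : p2 ≠ q2)
    (m1 : ({a, q1, p2} : Finset V) ∉ Λ) (m2 : ({a, p1, q2} : Finset V) ∉ Λ) :
    Exch M (↑({a, p1, p2} : Finset V) : Set V) (↑({a, q1, q2} : Finset V) : Set V) := by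
  apply exchange_of M.IsBase a p1 p2 a q1 q2 hap1 hap2 hp12 haq1 haq2 hq12
  intro b0 b1 b2
  cases b0 <;> cases b1 <;> cases b2 <;> simp only [cond_true, cond_false]
  · exact base_of_notMem hM hex hap1 hap2 hp12 hB₁
  · exact base_of_notMem hM hex hap1 haq2 h12 m2
  · exact base_of_notMem hM hex haq1 hap2 h21.symm m1
  · exact base_of_notMem hM hex haq1 haq2 hq12 hB₂
  · exact base_of_notMem hM hex hap1 hap2 hp12 hB₁
  · exact base_of_notMem hM hex hap1 haq2 h12 m2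
  · exact base_of_notMem hM hex haq1 hap2 h21.symm m1
  · exact base_of_notMem hM hex haq1 haq2 hq12 hB₂

/-- two bases with one common element -/
theorem exch_one [M.Finite]
    (hlin : ∀ l ∈ Λ, ∀ l' ∈ Λ, ∀ a b, a ≠ b → a ∈ l → b ∈ l → a ∈ l' → b ∈ l' → l = l')
    (hM : ∀ I : Finset V, M.Indep (↑I : Set V) ↔ (I.card ≤ 3 ∧ I ∉ Λ))
    (hex : ∃ I : Finset V, I.card = 3 ∧ I ∉ Λ) {a p1 p2 q1 q2 : V}
    (hB₁ : ({a, p1, p2} : Finset V) ∉ Λ) (hB₂ : ({a, q1, q2} : Finset V) ∉ Λ)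
    (hap1 : a ≠ p1) (hap2 : a ≠ p2) (hp12 : p1 ≠ p2) (haq1 : a ≠ q1) (haq2 : a ≠ q2)
    (hq12 : q1 ≠ q2) (h11 : p1 ≠ q1) (h12 : p1 ≠ q2) (h21 : p2 ≠ q1) (h22 : p2 ≠ q2) :
    Exch M (↑({a, p1, p2} : Finset V) : Set V) (↑({a, q1, q2} : Finset V) : Set V) := by
  by_cases hgood : ({a, q1, p2} : Finset V) ∉ Λ ∧ ({a, p1, q2} : Finset V) ∉ Λ
  · exact exch_one_aux hM hex hB₁ hB₂ hap1 hap2 hp12 haq1 haq2 hq12 h11 h12 h21 h22 hgood.1 hgood.2
  · have hsw : ({a, q1, q2} : Finset V) = {a, q2, q1} := by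
      ext x; simp only [Finset.mem_insert, Finset.mem_singleton]; tauto
    rw [hsw] at hB₂ ⊢
    have hA : ({a, q2, p2} : Finset V) ∉ Λ := by
      intro hl
      rcases not_and_or.mp hgood with h | h
      · rw [not_not] at h
        have h5 := hlin _ hl _ h a p2 hap2 (by simp) (by simp) (by simp) (by simp)
        have h6 : q2 ∈ ({a, q1, p2} : Finset V) := by rw [← h5]; simp
        simp only [Finset.mem_insert, Finset.mem_singleton] at h6
        rcases h6 with h6 | h6 | h6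
        · exact haq2 h6.symm
        · exact hq12 h6.symm
        · exact h22 h6.symm
      · rw [not_not] at h
        have h5 := hlin _ hl _ h a q2 haq2 (by simp) (by simp) (by simp) (by simp)
        have h6 : p2 ∈ ({a, p1, q2} : Finset V) := by rw [← h5]; simp
        simp only [Finset.mem_insert, Finset.mem_singleton] at h6
        rcases h6 with h6 | h6 | h6
        · exact hap2 h6.symm
        · exact hp12 h6.symm
        · exact h22 h6
    have hB : ({a, p1, q1} : Finset V) ∉ Λ := by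
      intro hl
      rcases not_and_or.mp hgood with h | h
      · rw [not_not] at h
        have h5 := hlin _ hl _ h a q1 haq1 (by simp) (by simp) (by simp) (by simp)
        have h6 : p1 ∈ ({a, q1, p2} : Finset V) := by rw [← h5]; simp
        simp only [Finset.mem_insert, Finset.mem_singleton] at h6
        rcases h6 with h6 | h6 | h6
        · exact hap1 h6.symm
        · exact h11 h6
        · exact hp12 h6
      · rw [not_not] at h
        have h5 := hlin _ hl _ h a p1 hap1 (by simp) (by simp) (by simp) (by simp)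
        have h6 : q1 ∈ ({a, p1, q2} : Finset V) := by rw [← h5]; simp
        simp only [Finset.mem_insert, Finset.mem_singleton] at h6
        rcases h6 with h6 | h6 | h6
        · exact haq1 h6.symm
        · exact h11 h6.symm
        · exact hq12 h6
    exact exch_one_aux hM hex hB₁ hB₂ hap1 hap2 hp12 haq2 haq1 hq12.symm h12 h11 h22 h21 hA hB

/-- two bases with two common elements -/
theorem exch_two [M.Finite]
    (hM : ∀ I : Finset V, M.Indep (↑I : Set V) ↔ (I.card ≤ 3 ∧ I ∉ Λ))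
    (hex : ∃ I : Finset V, I.card = 3 ∧ I ∉ Λ) {a b p q : V}
    (hB₁ : ({a, b, p} : Finset V) ∉ Λ) (hB₂ : ({a, b, q} : Finset V) ∉ Λ)
    (hab : a ≠ b) (hap : a ≠ p) (hbp : b ≠ p) (haq : a ≠ q) (hbq : b ≠ q) :
    Exch M (↑({a, b, p} : Finset V) : Set V) (↑({a, b, q} : Finset V) : Set V) := by
  apply exchange_of M.IsBase a b p a b q hab hap hbp hab haq hbq
  intro b0 b1 b2
  cases b0 <;> cases b1 <;> cases b2 <;> simp only [cond_true, cond_false]
  · exact base_of_notMem hM hex hab hap hbp hB₁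
  · exact base_of_notMem hM hex hab haq hbq hB₂
  · exact base_of_notMem hM hex hab hap hbp hB₁
  · exact base_of_notMem hM hex hab haq hbq hB₂
  · exact base_of_notMem hM hex hab hap hbp hB₁
  · exact base_of_notMem hM hex hab haq hbq hB₂
  · exact base_of_notMem hM hex hab hap hbp hB₁
  · exact base_of_notMem hM hex hab haq hbq hB₂

theorem line_exch [M.Finite]
    (hlin : ∀ l ∈ Λ, ∀ l' ∈ Λ, ∀ a b, a ≠ b → a ∈ l → b ∈ l → a ∈ l' → b ∈ l' → l = l')
    (hM : ∀ I : Finset V, M.Indep (↑I : Set V) ↔ (I.card ≤ 3 ∧ I ∉ Λ))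
    (hex : ∃ I : Finset V, I.card = 3 ∧ I ∉ Λ) (w : V → ℤ) (hw : Function.Injective w)
    (hsum : ∀ l ∈ Λ, ∑ v ∈ l, w v = 0) (B₁ B₂ : Set V) (h₁ : M.IsBase B₁) (h₂ : M.IsBase B₂) :
    Exch M B₁ B₂ := by
  obtain ⟨F₁, rfl⟩ : ∃ F₁ : Finset V, (↑F₁ : Set V) = B₁ := ⟨(Set.toFinite B₁).toFinset, by simp⟩
  obtain ⟨F₂, rfl⟩ : ∃ F₂ : Finset V, (↑F₂ : Set V) = B₂ := ⟨(Set.toFinite B₂).toFinset, by simp⟩
  obtain ⟨c₁, n₁⟩ := (line_isBase_iff hM hex F₁).mp h₁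
  obtain ⟨c₂, n₂⟩ := (line_isBase_iff hM hex F₂).mp h₂
  have k₁ := Finset.card_sdiff_add_card_inter F₁ F₂
  have k₂ := Finset.card_sdiff_add_card_inter F₂ F₁
  rw [Finset.inter_comm] at k₂
  have u₁ : F₁ = (F₁ ∩ F₂) ∪ (F₁ \ F₂) := by
    ext x; simp only [Finset.mem_union, Finset.mem_inter, Finset.mem_sdiff]; tauto
  have u₂ : F₂ = (F₁ ∩ F₂) ∪ (F₂ \ F₁) := by
    ext x; simp only [Finset.mem_union, Finset.mem_inter, Finset.mem_sdiff]; tauto
  have hcases : (F₁ ∩ F₂).card = 0 ∨ (F₁ ∩ F₂).card = 1 ∨ (F₁ ∩ F₂).card = 2 ∨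
      (F₁ ∩ F₂).card = 3 := by omega
  rcases hcases with h | h | h | h
  · have hd : Disjoint F₁ F₂ := by
      rw [Finset.disjoint_iff_inter_eq_empty]
      exact Finset.card_eq_zero.mp h
    exact exch_disjoint hM hex w hw hsum n₁ n₂ hd c₁ c₂
  · obtain ⟨a, ha⟩ := Finset.card_eq_one.mp h
    obtain ⟨p1, p2, hp12, hp⟩ := Finset.card_eq_two.mp (by omega : (F₁ \ F₂).card = 2)
    obtain ⟨q1, q2, hq12, hq⟩ := Finset.card_eq_two.mp (by omega : (F₂ \ F₁).card = 2)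
    have ha' : a ∈ F₁ ∩ F₂ := by rw [ha]; simp
    have hp1' : p1 ∈ F₁ \ F₂ := by rw [hp]; simp
    have hp2' : p2 ∈ F₁ \ F₂ := by rw [hp]; simp
    have hq1' : q1 ∈ F₂ \ F₁ := by rw [hq]; simp
    have hq2' : q2 ∈ F₂ \ F₁ := by rw [hq]; simp
    rw [Finset.mem_inter] at ha'
    rw [Finset.mem_sdiff] at hp1' hp2' hq1' hq2'
    have E₁ : F₁ = {a, p1, p2} := by
      rw [u₁, ha, hp]; ext x; simp only [Finset.mem_union, Finset.mem_insert, Finset.mem_singleton]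
    have E₂ : F₂ = {a, q1, q2} := by
      rw [u₂, ha, hq]; ext x; simp only [Finset.mem_union, Finset.mem_insert, Finset.mem_singleton]
    have d : ∀ x y : V, x ∈ F₂ → y ∉ F₂ → x ≠ y := fun x y hx hy hxy => hy (hxy ▸ hx)
    have d' : ∀ x y : V, x ∈ F₁ → y ∉ F₁ → x ≠ y := fun x y hx hy hxy => hy (hxy ▸ hx)
    have g1 := d a p1 ha'.2 hp1'.2
    have g2 := d a p2 ha'.2 hp2'.2
    have g3 := d' a q1 ha'.1 hq1'.2
    have g4 := d' a q2 ha'.1 hq2'.2
    have g5 := d' p1 q1 hp1'.1 hq1'.2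
    have g6 := d' p1 q2 hp1'.1 hq2'.2
    have g7 := d' p2 q1 hp2'.1 hq1'.2
    have g8 := d' p2 q2 hp2'.1 hq2'.2
    rw [E₁] at n₁ ⊢
    rw [E₂] at n₂ ⊢
    exact exch_one hlin hM hex n₁ n₂ g1 g2 hp12 g3 g4 hq12 g5 g6 g7 g8
  · obtain ⟨a, b, hab, ha⟩ := Finset.card_eq_two.mp h
    obtain ⟨p, hp⟩ := Finset.card_eq_one.mp (by omega : (F₁ \ F₂).card = 1)
    obtain ⟨q, hq⟩ := Finset.card_eq_one.mp (by omega : (F₂ \ F₁).card = 1)
    have ha' : a ∈ F₁ ∩ F₂ := by rw [ha]; simp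
    have hb' : b ∈ F₁ ∩ F₂ := by rw [ha]; simp
    have hp' : p ∈ F₁ \ F₂ := by rw [hp]; simp
    have hq' : q ∈ F₂ \ F₁ := by rw [hq]; simp
    rw [Finset.mem_inter] at ha' hb'
    rw [Finset.mem_sdiff] at hp' hq'
    have E₁ : F₁ = {a, b, p} := by
      rw [u₁, ha, hp]; ext x
      simp only [Finset.mem_union, Finset.mem_insert, Finset.mem_singleton]; tauto
    have E₂ : F₂ = {a, b, q} := by
      rw [u₂, ha, hq]; ext x
      simp only [Finset.mem_union, Finset.mem_insert, Finset.mem_singleton]; tauto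
    have d : ∀ x y : V, x ∈ F₂ → y ∉ F₂ → x ≠ y := fun x y hx hy hxy => hy (hxy ▸ hx)
    have d' : ∀ x y : V, x ∈ F₁ → y ∉ F₁ → x ≠ y := fun x y hx hy hxy => hy (hxy ▸ hx)
    have g1 := d a p ha'.2 hp'.2
    have g2 := d b p hb'.2 hp'.2
    have g3 := d' a q ha'.1 hq'.2
    have g4 := d' b q hb'.1 hq'.2
    rw [E₁] at n₁ ⊢
    rw [E₂] at n₂ ⊢
    exact exch_two hM hex n₁ n₂ hab g1 g2 g3 g4
  · have E : F₁ = F₂ := by
      have h5 : F₁ ∩ F₂ = F₁ := Finset.eq_of_subset_of_card_le Finset.inter_subset_left (by omega)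
      have h6 : F₁ ∩ F₂ = F₂ := Finset.eq_of_subset_of_card_le Finset.inter_subset_right (by omega)
      exact h5.symm.trans h6
    subst E
    refine ⟨id, Set.bijOn_id _, ?_⟩
    intro X hX
    rw [Set.image_id, Set.sdiff_union_of_subset hX]
    exact h₁

end Pool.Agent.Helper666.FinGen
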