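import Pool.Agent.Helper666.FinGen.ExprOps
import Pool.Agent.Helper666.FinGen.Core
import Pool.Agent.Helper666.FinGen.Sbo

/-!
# No finite family generates the strongly base-orderable matroids
-/

namespace Pool.Agent.Helper666.FinGen

open Set

/-- the class of matroids with rank functions expressible by submodular functions of at most `c`
elements -/
def ExprClass (c : ℕ) : MatClass := fun _ M => M.Finite ∧ Expr c M

theorem exprClass_complete {c : ℕ} (hc : 2 ≤ c) : IsComplete (ExprClass c) where
  finite := fun M h => h.1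
  iso := by
    intro α β M N h hMN
    have hM := h.1
    have hN : N.Finite := by
      obtain ⟨e, -⟩ := hMN
      have : Finite M.E := M.ground_finite.to_subtype
      have : Finite N.E := Finite.of_equiv _ e
      exact ⟨Set.toFinite _⟩
    exact ⟨hN, h.2.iso hMN⟩
  restrict := by
    intro α M A h hA
    have hM := h.1
    exact ⟨⟨M.ground_finite.subset hA⟩, h.2.restrict hA⟩
  contract := by
    intro α M A h _
    have hM := h.1
    exact ⟨⟨M.ground_finite.subset Set.sdiff_subset⟩, h.2.contract (by omega)⟩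
  dual := by
    intro α M h
    have hM := h.1
    exact ⟨⟨M.ground_finite⟩, h.2.dual (by omega)⟩
  sum := by
    intro α β M N h h'
    have hM := h.1
    have hN := h'.1
    refine ⟨⟨?_⟩, h.2.directSum h'.2⟩
    rw [Matroid.sum_ground]
    exact (M.ground_finite.image _).union (N.ground_finite.image _)
  truncate := by
    intro α M N k h hN
    have hM := h.1
    exact ⟨truncation_finite hN, h.2.truncate hc hN⟩
  induce := by
    intro T _ Γ M₀ A N h hN
    exact ⟨finite_matroid N, h.2.induce hc hN⟩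

theorem generated_expr {k : ℕ} {E : Fin k → Type} (M : ∀ i, Matroid (E i))
    (hfin : ∀ i, (M i).Finite) :
    ∃ c, ∀ (α : Type) (N : Matroid α), Generated M α N → N.Finite ∧ Expr c N := by
  refine ⟨2 + ∑ i, (M i).E.ncard, fun α N hN => ?_⟩
  refine hN (ExprClass (2 + ∑ i, (M i).E.ncard)) (exprClass_complete (by omega)) ?_
  intro i
  have := hfin i
  refine ⟨hfin i, Expr.base (M i) ?_⟩
  have : (M i).E.ncard ≤ ∑ i, (M i).E.ncard :=
    Finset.single_le_sum (f := fun i => (M i).E.ncard) (fun _ _ => Nat.zero_le _)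
      (Finset.mem_univ i)
  omega

/-- the lines of the example -/
def line (n : ℕ) (x : Fin n × Fin n) : Finset (Fin (7 * n)) :=
  {⟨4 * n + x.1, by have := x.1.2; omega⟩, ⟨6 * n + x.2, by have := x.2.2; omega⟩,
    ⟨2 * n - x.1 - x.2, by have := x.1.2; omega⟩}

theorem mem_line {n : ℕ} {x : Fin n × Fin n} {v : Fin (7 * n)} :
    v ∈ line n x ↔ ((v : ℕ) = 4 * n + x.1 ∨ (v : ℕ) = 6 * n + x.2 ∨ (v : ℕ) = 2 * n - x.1 - x.2) := by
  simp only [line, Finset.mem_insert, Finset.mem_singleton, Fin.ext_iff]

theorem line_card {n : ℕ} (x : Fin n × Fin n) : (line n x).card = 3 := by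
  have h1 := x.1.2
  have h2 := x.2.2
  apply Finset.card_eq_three.mpr
  refine ⟨_, _, _, ?_, ?_, ?_, rfl⟩
  · intro h
    rw [Fin.ext_iff] at h
    simp only at h
    omega
  · intro h
    rw [Fin.ext_iff] at h
    simp only at h
    omega
  · intro h
    rw [Fin.ext_iff] at h
    simp only at h
    omega

theorem line_meet {n : ℕ} (x y : Fin n × Fin n) (a b : Fin (7 * n)) (hab : a ≠ b)
    (hax : a ∈ line n x) (hbx : b ∈ line n x) (hay : a ∈ line n y) (hby : b ∈ line n y) : x = y := by
  rw [mem_line] at hax hbx hay hby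
  have hab' : (a : ℕ) ≠ b := fun h => hab (Fin.ext h)
  have h1 := x.1.2
  have h2 := x.2.2
  have h3 := y.1.2
  have h4 := y.2.2
  have h5 : (x.1 : ℕ) = y.1 ∧ (x.2 : ℕ) = y.2 := by
    rcases hax with hax | hax | hax <;> rcases hbx with hbx | hbx | hbx <;>
      first
      | (exfalso; omega)
      | (rcases hay with hay | hay | hay <;> first
          | (exfalso; omega)
          | (rcases hby with hby | hby | hby <;> first
              | (exfalso; omega)
              | (constructor <;> omega)))
  exact Prod.ext (Fin.ext h5.1) (Fin.ext h5.2)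

theorem line_sum {n : ℕ} (x : Fin n × Fin n) :
    ∑ v ∈ line n x, (((v : ℕ) : ℤ) - 4 * n) = 0 := by
  have h1 := x.1.2
  have h2 := x.2.2
  unfold line
  rw [sum_triple (fun v : Fin (7 * n) => (((v : ℕ) : ℤ) - 4 * n))]
  · simp only
    omega
  · intro h
    rw [Fin.ext_iff] at h
    simp only at h
    omega
  · intro h
    rw [Fin.ext_iff] at h
    simp only at h
    omega
  · intro h
    rw [Fin.ext_iff] at h
    simp only at h
    omega

/-- For every `c` there is a strongly base-orderable matroid whose rank function is not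
expressible by submodular functions of at most `c` elements. -/
theorem exists_sbo_not_expr (c : ℕ) : ∃ (α : Type) (N : Matroid α), SBO α N ∧ ¬ Expr c N := by
  classical
  obtain ⟨n, hn⟩ : ∃ n, n = 7 * c + 1 := ⟨_, rfl⟩
  let Λ : Finset (Finset (Fin (7 * n))) := Finset.univ.image (line n)
  have hmem : ∀ l, l ∈ Λ ↔ ∃ x, line n x = l := by
    intro l
    simp [Λ]
  have h3 : ∀ l ∈ Λ, l.card = 3 := by
    intro l hl
    obtain ⟨x, rfl⟩ := (hmem l).mp hl
    exact line_card x
  have hlin : ∀ l ∈ Λ, ∀ l' ∈ Λ, ∀ a b, a ≠ b → a ∈ l → b ∈ l → a ∈ l' → b ∈ l' → l = l' := by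
    intro l hl l' hl' a b hab ha hb ha' hb'
    obtain ⟨x, rfl⟩ := (hmem l).mp hl
    obtain ⟨y, rfl⟩ := (hmem l').mp hl'
    rw [line_meet x y a b hab ha hb ha' hb']
  have hinj : Function.Injective (line n) := by
    intro x y hxy
    obtain ⟨a, b, c, hab, hac, hbc, hl⟩ := Finset.card_eq_three.mp (line_card x)
    apply line_meet x y a b hab
    · simp [hl]
    · simp [hl]
    · rw [← hxy]; simp [hl]
    · rw [← hxy]; simp [hl]
  have hcard : Λ.card = n * n := by
    rw [Finset.card_image_of_injective _ hinj]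
    simp
  obtain ⟨M, hME, hM⟩ := exists_lineMatroid Λ h3 hlin
  have hfin : M.Finite := finite_matroid M
  have hex : ∃ I : Finset (Fin (7 * n)), I.card = 3 ∧ I ∉ Λ := by
    refine ⟨{⟨0, by omega⟩, ⟨4 * n, by omega⟩, ⟨6 * n, by omega⟩}, ?_, ?_⟩
    · apply Finset.card_eq_three.mpr
      refine ⟨_, _, _, ?_, ?_, ?_, rfl⟩
      · intro h
        rw [Fin.ext_iff] at h
        simp only at h
        omega
      · intro h
        rw [Fin.ext_iff] at h
        simp only at h
        omega
      · intro h
        rw [Fin.ext_iff] at h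
        simp only at h
        omega
    · intro h
      obtain ⟨x, hx⟩ := (hmem _).mp h
      have h0 : (⟨0, by omega⟩ : Fin (7 * n)) ∈ line n x := by rw [hx]; simp
      rw [mem_line] at h0
      have h1 := x.1.2
      have h2 := x.2.2
      simp only at h0
      omega
  refine ⟨Fin (7 * n), M, ⟨hfin, ?_⟩, ?_⟩
  · intro B₁ B₂ h₁ h₂
    refine line_exch hlin hM hex (fun v => (((v : ℕ) : ℤ) - 4 * n)) ?_ ?_ B₁ B₂ h₁ h₂
    · intro a b hab
      apply Fin.ext
      simp only at hab
      omega
    · intro l hl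
      obtain ⟨x, rfl⟩ := (hmem l).mp hl
      exact line_sum x
  · intro hexpr
    have hmeet : ∀ l ∈ Λ, ∀ l' ∈ Λ, l ≠ l' → ∀ v, v ∈ l → v ∈ l' → l ∩ l' = {v} := by
      intro l hl l' hl' hne v hv hv'
      ext x
      simp only [Finset.mem_inter, Finset.mem_singleton]
      constructor
      · rintro ⟨hx, hx'⟩
        by_contra hxv
        exact hne (hlin l hl l' hl' x v hxv hx hv hx' hv')
      · rintro rfl
        exact ⟨hv, hv'⟩
    have h4 := core M hME Λ h3 hmeet (line_rk_one h3 hM) (fun u v huv => (line_rk_two h3 hM u v huv).ge)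
      (line_rk_line h3 hM) (line_rk_insert h3 hlin hM) (line_rk_lines h3 hlin hM) hexpr
    rw [hcard, Fintype.card_fin] at h4
    have h5 : c * (7 * n) = (7 * c) * n := by ring
    rw [h5] at h4
    have h6 : n ≤ 7 * c := Nat.le_of_mul_le_mul_right h4 (by omega)
    omega

theorem SBO.bo {α : Type} {N : Matroid α} (h : SBO α N) : BO α N := by
  refine ⟨h.1, fun B₁ B₂ h₁ h₂ => ?_⟩
  obtain ⟨φ, hφ, hX⟩ := h.2 B₁ B₂ h₁ h₂
  exact ⟨φ, hφ, fun X hXB _ => hX X hXB⟩

/-- for every finite family of finite matroids some strongly base-orderable matroid lies outside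
the complete class it generates -/
theorem exists_sbo_not_generated {k : ℕ} {E : Fin k → Type} (M : ∀ i, Matroid (E i))
    (hfin : ∀ i, (M i).Finite) :
    ∃ (α : Type) (N : Matroid α), SBO α N ∧ ¬ Generated M α N := by
  obtain ⟨c, hc⟩ := generated_expr M hfin
  obtain ⟨α, N, hN, hN'⟩ := exists_sbo_not_expr c
  exact ⟨α, N, hN, fun h => hN' (hc α N h).2⟩

theorem not_finitelyGenerated : ¬ FinitelyGenerated SBO ∧ ¬ FinitelyGenerated BO := by
  constructor
  · rintro ⟨k, E, M, hfin, h⟩
    obtain ⟨α, N, hN, hN'⟩ := exists_sbo_not_generated M hfin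
    exact hN' ((h α N).mp hN)
  · rintro ⟨k, E, M, hfin, h⟩
    obtain ⟨α, N, hN, hN'⟩ := exists_sbo_not_generated M hfin
    exact hN' ((h α N).mp hN.bo)

end Pool.Agent.Helper666.FinGen
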