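import Mathlib

/-!
# Rado's theorem for an abstract submodular function
-/

namespace Pool.Agent.Helper666.FinGen

theorem rado_aux {ι T : Type} [Fintype ι] [DecidableEq ι] [DecidableEq T] (ρ : Finset T → ℤ)
    (hmono : ∀ S S', S ⊆ S' → ρ S ≤ ρ S')
    (hsub : ∀ S S', ρ (S ∪ S') + ρ (S ∩ S') ≤ ρ S + ρ S')
    (hcard : ∀ S, ρ S ≤ S.card) (n : ℕ) :
    ∀ Γ : ι → Finset T, (∑ i, (Γ i).card) = n →
      (∀ Q : Finset ι, (Q.card : ℤ) ≤ ρ (Q.biUnion Γ)) →
      ∃ m : ι → T, (∀ i, m i ∈ Γ i) ∧ (Fintype.card ι : ℤ) ≤ ρ (Finset.univ.image m) := by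
  induction n using Nat.strong_induction_on with
  | _ n ih =>
    intro Γ hn hΓ
    have hne : ∀ i, (Γ i).Nonempty := by
      intro i
      rw [Finset.nonempty_iff_ne_empty]
      intro h0
      have h1 := hΓ {i}
      simp only [Finset.card_singleton, Finset.singleton_biUnion, h0] at h1
      have h2 := hcard ∅
      simp only [Finset.card_empty] at h2
      push_cast at h1 h2
      linarith
    by_cases hall : ∀ i, (Γ i).card = 1
    · choose m hm using fun i => Finset.card_eq_one.mp (hall i)
      refine ⟨m, fun i => by rw [hm i]; simp, ?_⟩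
      have h1 := hΓ Finset.univ
      have h2 : (Finset.univ : Finset ι).biUnion Γ = Finset.univ.image m := by
        ext x
        simp only [Finset.mem_biUnion, Finset.mem_univ, true_and, Finset.mem_image, hm,
          Finset.mem_singleton]
        exact ⟨fun ⟨a, ha⟩ => ⟨a, ha.symm⟩, fun ⟨a, ha⟩ => ⟨a, ha.symm⟩⟩
      rw [h2] at h1
      simpa using h1
    · push Not at hall
      obtain ⟨v, hv⟩ := hall
      have hv2 : 1 < (Γ v).card := by
        have := Finset.card_pos.mpr (hne v)
        omega
      obtain ⟨y₁, hy₁, y₂, hy₂, hy⟩ := Finset.one_lt_card.mp hv2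
      -- remove an element
      have key : ∀ y ∈ Γ v, (∀ Q : Finset ι, (Q.card : ℤ) ≤
          ρ (Q.biUnion (Function.update Γ v ((Γ v).erase y)))) →
          ∃ m : ι → T, (∀ i, m i ∈ Γ i) ∧ (Fintype.card ι : ℤ) ≤ ρ (Finset.univ.image m) := by
        intro y hyv hQ
        have hlt : (∑ i, (Function.update Γ v ((Γ v).erase y) i).card) < n := by
          rw [← hn]
          apply Finset.sum_lt_sum
          · intro i _
            by_cases hiv : i = v
            · subst hiv
              simp only [Function.update_self]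
              exact Finset.card_le_card (Finset.erase_subset _ _)
            · simp [Function.update_of_ne hiv]
          · refine ⟨v, Finset.mem_univ _, ?_⟩
            simp only [Function.update_self]
            exact Finset.card_lt_card (Finset.erase_ssubset hyv)
        obtain ⟨m, hm1, hm2⟩ := ih _ hlt _ rfl hQ
        refine ⟨m, fun i => ?_, hm2⟩
        by_cases hiv : i = v
        · subst hiv
          have := hm1 i
          simp only [Function.update_self] at this
          exact Finset.mem_of_mem_erase this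
        · have := hm1 i
          rwa [Function.update_of_ne hiv] at this
      by_contra hcon
      have h1 : ∀ y ∈ Γ v, ∃ Q : Finset ι, v ∉ Q ∧
          ρ ((Q.biUnion Γ) ∪ (Γ v).erase y) ≤ Q.card := by
        intro y hyv
        have h2 : ¬ (∀ Q : Finset ι, (Q.card : ℤ) ≤
          ρ (Q.biUnion (Function.update Γ v ((Γ v).erase y)))) := fun h => hcon (key y hyv h)
        push Not at h2
        obtain ⟨Q, hQ⟩ := h2
        have hvQ : v ∈ Q := by
          by_contra hvQ
          have h3 : Q.biUnion (Function.update Γ v ((Γ v).erase y)) = Q.biUnion Γ := by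
            apply Finset.biUnion_congr rfl
            intro a ha
            rw [Function.update_of_ne]
            rintro rfl
            exact hvQ ha
          rw [h3] at hQ
          exact absurd (hΓ Q) (not_le.mpr hQ)
        refine ⟨Q.erase v, Finset.notMem_erase _ _, ?_⟩
        have h4 : Q.biUnion (Function.update Γ v ((Γ v).erase y)) =
            (Q.erase v).biUnion Γ ∪ (Γ v).erase y := by
          ext x
          simp only [Finset.mem_biUnion, Finset.mem_union, Finset.mem_erase]
          constructor
          · rintro ⟨a, ha, hx⟩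
            by_cases hav : a = v
            · subst hav
              simp only [Function.update_self, Finset.mem_erase] at hx
              exact Or.inr hx
            · rw [Function.update_of_ne hav] at hx
              exact Or.inl ⟨a, ⟨hav, ha⟩, hx⟩
          · rintro (⟨a, ⟨hav, ha⟩, hx⟩ | hx)
            · exact ⟨a, ha, by rwa [Function.update_of_ne hav]⟩
            · exact ⟨v, hvQ, by simpa using hx⟩
        rw [← h4]
        have h5 : (Q.erase v).card + 1 = Q.card := Finset.card_erase_add_one hvQ
        have h6 : ((Q.erase v).card : ℤ) + 1 = Q.card := by exact_mod_cast h5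
        omega
      obtain ⟨X₁, hvX₁, hX₁⟩ := h1 y₁ hy₁
      obtain ⟨X₂, hvX₂, hX₂⟩ := h1 y₂ hy₂
      have h7 := hsub (X₁.biUnion Γ ∪ (Γ v).erase y₁) (X₂.biUnion Γ ∪ (Γ v).erase y₂)
      have h8 : (insert v (X₁ ∪ X₂)).biUnion Γ ⊆
          (X₁.biUnion Γ ∪ (Γ v).erase y₁) ∪ (X₂.biUnion Γ ∪ (Γ v).erase y₂) := by
        intro x hx
        simp only [Finset.mem_biUnion, Finset.mem_insert, Finset.mem_union] at hx
        simp only [Finset.mem_biUnion, Finset.mem_union, Finset.mem_erase]
        obtain ⟨a, (rfl | ha | ha), hxa⟩ := hx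
        · by_cases hx1 : x = y₁
          · right; right
            exact ⟨fun h => hy (hx1.symm.trans h), hxa⟩
          · left; right
            exact ⟨hx1, hxa⟩
        · left; left
          exact ⟨a, ha, hxa⟩
        · right; left
          exact ⟨a, ha, hxa⟩
      have h9 : (X₁ ∩ X₂).biUnion Γ ⊆
          (X₁.biUnion Γ ∪ (Γ v).erase y₁) ∩ (X₂.biUnion Γ ∪ (Γ v).erase y₂) := by
        intro x hx
        simp only [Finset.mem_biUnion, Finset.mem_inter] at hx
        simp only [Finset.mem_inter, Finset.mem_biUnion, Finset.mem_union]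
        obtain ⟨a, ⟨ha1, ha2⟩, hxa⟩ := hx
        exact ⟨Or.inl ⟨a, ha1, hxa⟩, Or.inl ⟨a, ha2, hxa⟩⟩
      have h10 := hmono _ _ h8
      have h11 := hmono _ _ h9
      have h12 := hΓ (insert v (X₁ ∪ X₂))
      have h13 := hΓ (X₁ ∩ X₂)
      have h14 : (insert v (X₁ ∪ X₂)).card = (X₁ ∪ X₂).card + 1 := by
        apply Finset.card_insert_of_notMem
        simp [hvX₁, hvX₂]
      have h15 : (X₁ ∪ X₂).card + (X₁ ∩ X₂).card = X₁.card + X₂.card :=
        Finset.card_union_add_card_inter _ _
      have h16 : ((X₁ ∪ X₂).card : ℤ) + (X₁ ∩ X₂).card = X₁.card + X₂.card := by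
        exact_mod_cast h15
      rw [h14] at h12
      push_cast at h12
      linarith

/-- Rado's theorem for an integer valued monotone submodular function `ρ` with `ρ S ≤ |S|`. -/
theorem rado {ι T : Type} [Fintype ι] [DecidableEq ι] [DecidableEq T] (ρ : Finset T → ℤ)
    (hmono : ∀ S S', S ⊆ S' → ρ S ≤ ρ S')
    (hsub : ∀ S S', ρ (S ∪ S') + ρ (S ∩ S') ≤ ρ S + ρ S')
    (hcard : ∀ S, ρ S ≤ S.card) (Γ : ι → Finset T)
    (hΓ : ∀ Q : Finset ι, (Q.card : ℤ) ≤ ρ (Q.biUnion Γ)) :
    ∃ m : ι → T, Function.Injective m ∧ (∀ i, m i ∈ Γ i) ∧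
      (Fintype.card ι : ℤ) ≤ ρ (Finset.univ.image m) := by
  obtain ⟨m, h1, h2⟩ := rado_aux ρ hmono hsub hcard _ Γ rfl hΓ
  refine ⟨m, ?_, h1, h2⟩
  have h3 := hcard (Finset.univ.image m)
  have h4 : Fintype.card ι ≤ (Finset.univ.image m).card := by
    have := h2.trans h3
    exact_mod_cast this
  have h5 : (Finset.univ.image m).card = (Finset.univ : Finset ι).card :=
    le_antisymm Finset.card_image_le (by simpa using h4)
  have h6 := Finset.card_image_iff.mp h5
  exact fun a b hab => h6 (by simp) (by simp) hab

end Pool.Agent.Helper666.FinGen
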