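import Pool.Agent.Helper666.FinGen.Rank
import Pool.Agent.Helper666.FinGen.Rado

/-!
# Linkings and the rank function of an induced matroid
-/

namespace Pool.Agent.Helper666.FinGen

open Set

variable {T : Type}

/-- closed in-neighbourhood -/
def nbhd (Γ : Digraph T) (Q : Set T) : Set T := Q ∪ {u | ∃ v ∈ Q, Γ.Adj u v}

theorem subset_nbhd (Γ : Digraph T) (Q : Set T) : Q ⊆ nbhd Γ Q := Set.subset_union_left

theorem nbhd_union (Γ : Digraph T) (Q Q' : Set T) : nbhd Γ (Q ∪ Q') = nbhd Γ Q ∪ nbhd Γ Q' := by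
  ext x
  simp only [nbhd, Set.mem_union, Set.mem_ofPred_eq]
  constructor
  · rintro ((h | h) | ⟨v, (h | h), hv⟩)
    · exact Or.inl (Or.inl h)
    · exact Or.inr (Or.inl h)
    · exact Or.inl (Or.inr ⟨v, h, hv⟩)
    · exact Or.inr (Or.inr ⟨v, h, hv⟩)
  · rintro ((h | ⟨v, h, hv⟩) | (h | ⟨v, h, hv⟩))
    · exact Or.inl (Or.inl h)
    · exact Or.inr ⟨v, Or.inl h, hv⟩
    · exact Or.inl (Or.inr h)
    · exact Or.inr ⟨v, Or.inr h, hv⟩

theorem nbhd_inter (Γ : Digraph T) (Q Q' : Set T) : nbhd Γ (Q ∩ Q') ⊆ nbhd Γ Q ∩ nbhd Γ Q' := by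
  intro x hx
  simp only [nbhd, Set.mem_union, Set.mem_ofPred_eq, Set.mem_inter_iff] at hx ⊢
  rcases hx with h | ⟨v, h, hv⟩
  · exact ⟨Or.inl h.1, Or.inl h.2⟩
  · exact ⟨Or.inr ⟨v, h.1, hv⟩, Or.inr ⟨v, h.2, hv⟩⟩

/-! ### weak duality -/

theorem chain_avoid (Γ : Digraph T) (Q N : Set T) (hN : nbhd Γ Q ⊆ N) :
    ∀ (p : List T) (x : T), (x :: p).IsChain Γ.Adj → x ∉ N → (∀ t ∈ p, t ∉ N \ Q) →
      ∀ t ∈ (x :: p), t ∉ N := by
  intro p
  induction p with
  | nil =>
    intro x _ hx _ t ht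
    simp only [List.mem_singleton] at ht
    exact ht ▸ hx
  | cons y p ih =>
    intro x hc hx hp t ht
    rw [List.isChain_cons_cons] at hc
    have hy : y ∉ N := by
      intro hyN
      have h1 := hp y (by simp)
      have hyQ : y ∈ Q := by
        by_contra h
        exact h1 ⟨hyN, h⟩
      exact hx (hN (Or.inr ⟨y, hyQ, hc.1⟩))
    rcases List.mem_cons.mp ht with rfl | ht'
    · exact hx
    · exact ih y hc.2 hy (fun t ht => hp t (List.mem_cons_of_mem _ ht)) t ht'

theorem linked_le [Finite T] (Γ : Digraph T) (X Y : Set T) (h : Linked Γ X Y) (Q N : Set T)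
    (hN : nbhd Γ Q ⊆ N) : X.ncard ≤ (X ∩ Q).ncard + (N \ Q).ncard + (Y \ N).ncard := by
  obtain ⟨P, hP, hdisj, hX, hY⟩ := h
  set S : Set T := ((X ∩ Q) ∪ (N \ Q)) ∪ (Y \ N) with hS
  have h1 : ∀ p ∈ P, ∃ c ∈ p, c ∈ S := by
    intro p hp
    by_contra hcon
    push Not at hcon
    obtain ⟨hne, -, hch⟩ := hP p hp
    match p, hne with
    | x :: q, _ =>
      have hxX : x ∈ X := by
        rw [← hX]
        exact ⟨x :: q, hp, by simp⟩
      have hx : x ∉ N := by
        intro hxN
        by_cases hxQ : x ∈ Q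
        · exact hcon x (by simp) (Or.inl (Or.inl ⟨hxX, hxQ⟩))
        · exact hcon x (by simp) (Or.inl (Or.inr ⟨hxN, hxQ⟩))
      have h2 := chain_avoid Γ Q N hN q x hch hx
        (fun t ht htN => hcon t (List.mem_cons_of_mem _ ht) (Or.inl (Or.inr htN)))
      have h3 := List.getLast_mem (List.cons_ne_nil x q)
      have hyY : (x :: q).getLast (List.cons_ne_nil x q) ∈ Y := by
        rw [← hY]
        exact ⟨x :: q, hp, List.getLast?_eq_some_getLast _⟩
      exact hcon _ h3 (Or.inr ⟨hyY, h2 _ h3⟩)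
  choose c hc1 hc2 using h1
  have h2 : ∀ x : T, x ∈ X → ∃ p, p ∈ P ∧ p.head? = some x := by
    intro x hx
    rw [← hX] at hx
    exact hx
  choose! pth hpth1 hpth2 using h2
  classical
  let F : T → T := fun x => if hx : x ∈ X then c (pth x) (hpth1 x hx) else x
  have hle : X.ncard ≤ S.ncard := by
    apply Set.ncard_le_ncard_of_injOn F
    · intro x hx
      simp only [F, dif_pos hx]
      exact hc2 _ _
    · intro x hx x' hx' hxx
      simp only [F, dif_pos hx, dif_pos hx'] at hxx
      by_contra hne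
      have hpne : pth x ≠ pth x' := by
        intro heq
        have h3 := hpth2 x hx
        rw [heq, hpth2 x' hx'] at h3
        exact hne (Option.some.inj h3).symm
      have h4 := hdisj _ (hpth1 x hx) _ (hpth1 x' hx') hpne
      exact h4 (hc1 _ (hpth1 x hx)) (hxx ▸ hc1 _ (hpth1 x' hx'))
  calc X.ncard ≤ S.ncard := hle
    _ ≤ ((X ∩ Q) ∪ (N \ Q)).ncard + (Y \ N).ncard := Set.ncard_union_le _ _
    _ ≤ _ := by
      have := Set.ncard_union_le (X ∩ Q) (N \ Q)
      omega

/-! ### from a transversal to a linking -/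

theorem linked_of_map [Finite T] (Γ : Digraph T) (X : Set T) (m : T → T) (hinj : InjOn m Xᶜ)
    (hm : ∀ t, t ∉ X → m t = t ∨ Γ.Adj (m t) t) : Linked Γ X (m '' Xᶜ)ᶜ := by
  classical
  set Y : Set T := (m '' Xᶜ)ᶜ with hY
  have hg : ∀ s : T, ∃ t : T, s ∉ Y → t ∉ X ∧ m t = s := by
    intro s
    by_cases hs : s ∈ Y
    · exact ⟨s, fun h => absurd hs h⟩
    · have hs' : s ∈ m '' Xᶜ := by
        simpa [hY] using hs
      obtain ⟨t, ht, hts⟩ := hs'
      exact ⟨t, fun _ => ⟨ht, hts⟩⟩
  choose g hg using hg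
  let a : T → ℕ → T := fun x k => g^[k] x
  have ha0 : ∀ x, a x 0 = x := fun x => rfl
  have hasucc : ∀ x k, a x (k + 1) = g (a x k) := fun x k => Function.iterate_succ_apply' g k x
  have haX : ∀ x k, a x k ∉ Y → a x (k + 1) ∉ X ∧ m (a x (k + 1)) = a x k := by
    intro x k hk
    rw [hasucc]
    exact hg _ hk
  have back : ∀ x ∈ X, ∀ x' ∈ X, ∀ j k, (∀ i < j, a x i ∉ Y) → (∀ i < k, a x' i ∉ Y) →
      a x j = a x' k → j = k ∧ x = x' := by
    intro x hx x' hx' j
    induction j with
    | zero =>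
      intro k _ hk h
      rcases k with _ | k
      · exact ⟨rfl, h⟩
      · exfalso
        have h1 := (haX x' k (hk k (Nat.lt_succ_self k))).1
        rw [← h] at h1
        exact h1 hx
    | succ j ih =>
      intro k hj hk h
      rcases k with _ | k
      · exfalso
        have h1 := (haX x j (hj j (Nat.lt_succ_self j))).1
        rw [h] at h1
        exact h1 hx'
      · have h1 := (haX x j (hj j (Nat.lt_succ_self j))).2
        have h2 := (haX x' k (hk k (Nat.lt_succ_self k))).2
        rw [h] at h1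
        obtain ⟨h3, h4⟩ := ih k (fun i hi => hj i (Nat.lt_succ_of_lt hi))
          (fun i hi => hk i (Nat.lt_succ_of_lt hi)) (h1.symm.trans h2)
        exact ⟨by rw [h3], h4⟩
  have hex : ∀ x ∈ X, ∃ n, a x n ∈ Y := by
    intro x hx
    by_contra hcon
    push Not at hcon
    have : Function.Injective (a x) := by
      intro j k h
      exact (back x hx x hx j k (fun i _ => hcon i) (fun i _ => hcon i) h).1
    exact not_injective_infinite_finite _ this
  let n : T → ℕ := fun x => if h : ∃ n, a x n ∈ Y then Nat.find h else 0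
  have hn1 : ∀ x ∈ X, a x (n x) ∈ Y := by
    intro x hx
    simp only [n, dif_pos (hex x hx)]
    exact Nat.find_spec (hex x hx)
  have hn2 : ∀ x ∈ X, ∀ i < n x, a x i ∉ Y := by
    intro x hx i hi
    simp only [n, dif_pos (hex x hx)] at hi
    exact Nat.find_min (hex x hx) hi
  let p : T → List T := fun x => (List.range (n x + 1)).map (a x)
  have hmem : ∀ x t, t ∈ p x ↔ ∃ j, j ≤ n x ∧ a x j = t := by
    intro x t
    simp only [p, List.mem_map, List.mem_range]
    constructor
    · rintro ⟨j, hj, h⟩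
      exact ⟨j, by omega, h⟩
    · rintro ⟨j, hj, h⟩
      exact ⟨j, by omega, h⟩
  have hlast : ∀ x, (p x).getLast? = some (a x (n x)) := by
    intro x
    simp only [p, List.range_succ, List.map_append, List.map_cons, List.map_nil]
    simp
  have hhead : ∀ x, (p x).head? = some x := by
    intro x
    simp only [p, List.range_succ_eq_map, List.map_cons]
    simp [ha0]
  have hlt : ∀ x ∈ X, ∀ j ≤ n x, ∀ i < j, a x i ∉ Y := fun x hx j hj i hi =>
    hn2 x hx i (lt_of_lt_of_le hi hj)
  refine ⟨p '' X, ?_, ?_, ?_, ?_⟩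
  · rintro _ ⟨x, hx, rfl⟩
    refine ⟨?_, ?_, ?_⟩
    · intro h
      have := hhead x
      rw [h] at this
      simp at this
    · refine List.Nodup.map_on ?_ List.nodup_range
      intro j hj k hk h
      rw [List.mem_range] at hj hk
      exact (back x hx x hx j k (hlt x hx j (by omega)) (hlt x hx k (by omega)) h).1
    · simp only [p]
      rw [List.isChain_map, List.isChain_range]
      intro k hk
      have hk' : k < n x := by omega
      have h1 := haX x k (hn2 x hx k hk')
      rcases hm _ h1.1 with h2 | h2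
      · exfalso
        rw [h1.2] at h2
        have := (back x hx x hx k (k + 1) (hlt x hx k (by omega)) (hlt x hx (k + 1) (by omega)) h2).1
        omega
      · rw [h1.2] at h2
        exact h2
  · rintro _ ⟨x, hx, rfl⟩ _ ⟨x', hx', rfl⟩ hne t ht ht'
    rw [hmem] at ht ht'
    obtain ⟨j, hj, hjt⟩ := ht
    obtain ⟨k, hk, hkt⟩ := ht'
    have := (back x hx x' hx' j k (hlt x hx j hj) (hlt x' hx' k hk) (hjt.trans hkt.symm)).2
    exact hne (by rw [this])
  · ext x
    constructor
    · rintro ⟨_, ⟨x', hx', rfl⟩, h⟩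
      rw [hhead] at h
      exact Option.some.inj h ▸ hx'
    · intro hx
      exact ⟨p x, ⟨x, hx, rfl⟩, hhead x⟩
  · have hL : {y | ∃ q ∈ p '' X, q.getLast? = some y} = (fun x => a x (n x)) '' X := by
      ext y
      constructor
      · rintro ⟨_, ⟨x', hx', rfl⟩, h⟩
        rw [hlast] at h
        exact ⟨x', hx', Option.some.inj h⟩
      · rintro ⟨x, hx, rfl⟩
        exact ⟨p x, ⟨x, hx, rfl⟩, hlast x⟩
    rw [hL]
    apply Set.eq_of_subset_of_ncard_le
    · rintro _ ⟨x, hx, rfl⟩
      exact hn1 x hx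
    · have h1 : ((fun x => a x (n x)) '' X).ncard = X.ncard := by
        apply Set.InjOn.ncard_image
        intro x hx x' hx' h
        exact (back x hx x' hx' _ _ (hn2 x hx) (hn2 x' hx') h).2
      rw [h1]
      have h2 : (m '' Xᶜ).ncard = (Xᶜ).ncard := Set.InjOn.ncard_image hinj
      have h3 := Set.ncard_add_ncard_compl X
      have h4 := Set.ncard_add_ncard_compl (m '' Xᶜ)
      rw [← hY] at h4
      omega
    · exact Set.toFinite _

end Pool.Agent.Helper666.FinGen
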