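import Pool.Agent.Helper666.FinGen.Defs

/-!
# The integer valued rank function of a finite matroid
-/

namespace Pool.Agent.Helper666.FinGen

open Set

variable {α β : Type}

/-- the rank function, with integer values -/
noncomputable def rk (M : Matroid α) (X : Set α) : ℤ := ((M.eRk X).toNat : ℤ)

theorem eRk_ne_top (M : Matroid α) [M.Finite] (X : Set α) : M.eRk X ≠ ⊤ := by
  have h1 : M.eRk X ≤ M.E.encard := (M.eRk_le_eRank X).trans M.eRank_le_encard_ground
  have h2 : M.E.encard ≠ ⊤ := M.ground_finite.encard_lt_top.ne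
  exact fun h => h2 (top_le_iff.mp (h ▸ h1))

theorem coe_toNat (M : Matroid α) [M.Finite] (X : Set α) :
    (((M.eRk X).toNat : ℕ) : ℕ∞) = M.eRk X := ENat.natCast_toNat (eRk_ne_top M X)

theorem rk_nonneg (M : Matroid α) (X : Set α) : 0 ≤ rk M X := by unfold rk; positivity

theorem rk_mono (M : Matroid α) [M.Finite] {X Y : Set α} (h : X ⊆ Y) : rk M X ≤ rk M Y := by
  unfold rk
  have := ENat.toNat_le_toNat (M.eRk_mono h) (eRk_ne_top M Y)
  exact_mod_cast this

theorem rk_inter_ground (M : Matroid α) (X : Set α) : rk M (X ∩ M.E) = rk M X := by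
  unfold rk; rw [M.eRk_inter_ground]

theorem rk_submod (M : Matroid α) [M.Finite] (X Y : Set α) :
    rk M (X ∪ Y) + rk M (X ∩ Y) ≤ rk M X + rk M Y := by
  have h := M.eRk_inter_add_eRk_union_le X Y
  rw [← coe_toNat M X, ← coe_toNat M Y, ← coe_toNat M (X ∩ Y), ← coe_toNat M (X ∪ Y)] at h
  have h' : (M.eRk (X ∩ Y)).toNat + (M.eRk (X ∪ Y)).toNat ≤ (M.eRk X).toNat + (M.eRk Y).toNat := by
    exact_mod_cast h
  unfold rk
  have h'' : (((M.eRk (X ∩ Y)).toNat + (M.eRk (X ∪ Y)).toNat : ℕ) : ℤ) ≤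
    (((M.eRk X).toNat + (M.eRk Y).toNat : ℕ) : ℤ) := by exact_mod_cast h'
  push_cast at h''
  linarith

theorem rk_indep (M : Matroid α) {I : Set α} (h : M.Indep I) : rk M I = I.ncard := by
  unfold rk
  rw [h.eRk_eq_encard]
  rfl

theorem exists_indep (M : Matroid α) (X : Set α) :
    ∃ I ⊆ X, M.Indep I ∧ (I.ncard : ℤ) = rk M X := by
  obtain ⟨I, hI⟩ := M.exists_isBasis' X
  refine ⟨I, hI.subset, hI.indep, ?_⟩
  unfold rk
  rw [hI.eRk_eq_encard]
  rfl

theorem ncard_le_rk (M : Matroid α) [M.Finite] {I X : Set α} (h : M.Indep I) (hX : I ⊆ X) :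
    (I.ncard : ℤ) ≤ rk M X := by
  rw [← rk_indep M h]
  exact rk_mono M hX

theorem rk_le_ncard (M : Matroid α) {X : Set α} (hX : X.Finite) : rk M X ≤ X.ncard := by
  obtain ⟨I, hI, hi, h⟩ := exists_indep M X
  rw [← h]
  exact_mod_cast Set.ncard_le_ncard hI hX

theorem indep_of_ncard_le (M : Matroid α) {I : Set α} (hI : I.Finite) (h : (I.ncard : ℤ) ≤ rk M I) :
    M.Indep I := by
  obtain ⟨J, hJ, hj, h'⟩ := exists_indep M I
  have h1 : I.ncard ≤ J.ncard := by
    have : (I.ncard : ℤ) ≤ J.ncard := by rw [h']; exact h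
    exact_mod_cast this
  have h2 : J = I := Set.eq_of_subset_of_ncard_le hJ h1 hI
  exact h2 ▸ hj

theorem rk_empty (M : Matroid α) : rk M ∅ = 0 := by
  unfold rk; simp

/-- adding a finite set raises the rank by at most its size -/
theorem rk_union_le (M : Matroid α) [M.Finite] (X Y : Set α) (hY : Y.Finite) :
    rk M (X ∪ Y) ≤ rk M X + Y.ncard := by
  have h1 := rk_submod M X Y
  have h2 := rk_nonneg M (X ∩ Y)
  have h3 := rk_le_ncard M hY
  linarith

theorem rk_restrict (M : Matroid α) (A X : Set α) : rk (M.restrict A) X = rk M (X ∩ A) := by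
  unfold rk
  rw [M.restrict_eRk_eq' A X]

theorem rk_dual (M : Matroid α) [M.Finite] {X : Set α} (hX : X ⊆ M.E) :
    rk M.dual X = X.ncard + rk M (M.E \ X) - rk M M.E := by
  have h := M.eRk_dual_add_eRank X hX
  have hfd : M.dual.Finite := inferInstance
  have hXf : X.Finite := M.ground_finite.subset hX
  rw [← coe_toNat M.dual X, ← M.eRk_ground, ← coe_toNat M M.E, ← coe_toNat M (M.E \ X),
    ← hXf.cast_ncard_eq] at h
  have h' : (M.dual.eRk X).toNat + (M.eRk M.E).toNat = (M.eRk (M.E \ X)).toNat + X.ncard := by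
    exact_mod_cast h
  unfold rk
  have h'' : (((M.dual.eRk X).toNat + (M.eRk M.E).toNat : ℕ) : ℤ) =
    (((M.eRk (M.E \ X)).toNat + X.ncard : ℕ) : ℤ) := by exact_mod_cast h'
  push_cast at h''
  linarith

theorem rk_sum (M : Matroid α) (N : Matroid β) [M.Finite] [N.Finite] (X : Set (α ⊕ β)) :
    rk (M.sum N) X = rk M (Sum.inl ⁻¹' X) + rk N (Sum.inr ⁻¹' X) := by
  have key : ∀ X : Set (α ⊕ β), X ⊆ (M.sum N).E →
      rk (M.sum N) X = rk M (Sum.inl ⁻¹' X) + rk N (Sum.inr ⁻¹' X) := by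
    intro X hX
    obtain ⟨I, hI⟩ := (M.sum N).exists_isBasis X hX
    have h1 := Matroid.sum_isBasis_iff.mp hI
    have hIl : (Sum.inl ⁻¹' I : Set α).Finite := M.ground_finite.subset h1.1.indep.subset_ground
    have hIr : (Sum.inr ⁻¹' I : Set β).Finite := N.ground_finite.subset h1.2.indep.subset_ground
    have h2 : I.ncard = (Sum.inl ⁻¹' I : Set α).ncard + (Sum.inr ⁻¹' I : Set β).ncard := by
      have h3 : I = (Sum.inl '' (Sum.inl ⁻¹' I : Set α)) ∪ (Sum.inr '' (Sum.inr ⁻¹' I : Set β)) := by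
        ext x
        rcases x with x | x <;> simp
      conv_lhs => rw [h3]
      have hdis : Disjoint (Sum.inl '' (Sum.inl ⁻¹' I : Set α)) (Sum.inr '' (Sum.inr ⁻¹' I : Set β)) := by
        rw [Set.disjoint_left]
        rintro x ⟨a, _, rfl⟩ ⟨b, _, hb⟩
        exact absurd hb (by simp)
      rw [Set.ncard_union_eq hdis (hIl.image _) (hIr.image _),
        Set.ncard_image_of_injective _ Sum.inl_injective,
        Set.ncard_image_of_injective _ Sum.inr_injective]
    unfold rk
    rw [hI.eRk_eq_encard, h1.1.eRk_eq_encard, h1.2.eRk_eq_encard]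
    change (I.ncard : ℤ) = ((Sum.inl ⁻¹' I : Set α).ncard : ℤ) + ((Sum.inr ⁻¹' I : Set β).ncard : ℤ)
    exact_mod_cast h2
  rw [← rk_inter_ground (M.sum N) X, key _ Set.inter_subset_right,
    ← rk_inter_ground M (Sum.inl ⁻¹' X), ← rk_inter_ground N (Sum.inr ⁻¹' X)]
  congr 2
  · ext x; simp
  · ext x; simp

theorem truncation_finite {M N : Matroid α} [M.Finite] {k : ℕ} (h : IsTruncation M k N) :
    N.Finite := ⟨by rw [h.2.1]; exact M.ground_finite⟩

theorem rk_truncation {M N : Matroid α} [M.Finite] {k : ℕ} (h : IsTruncation M k N) (X : Set α) :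
    rk N X = min (rk M X) k := by
  have := truncation_finite h
  obtain ⟨hk, hE, hind⟩ := h
  apply le_antisymm
  · obtain ⟨I, hI, hi, hr⟩ := exists_indep N X
    rw [← hr]
    have h1 := (hind I).mp hi
    have hfin : I.Finite := M.ground_finite.subset h1.1.subset_ground
    refine le_min (ncard_le_rk M h1.1 hI) ?_
    have h2 := h1.2
    rw [← hfin.cast_ncard_eq] at h2
    exact_mod_cast h2
  · obtain ⟨I, hI, hi, hr⟩ := exists_indep M X
    have hfin : I.Finite := M.ground_finite.subset hi.subset_ground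
    rw [← hr]
    rcases le_total I.ncard k with hle | hle
    · rw [min_eq_left (by exact_mod_cast hle)]
      apply ncard_le_rk N _ hI
      refine (hind I).mpr ⟨hi, ?_⟩
      rw [← hfin.cast_ncard_eq]
      exact_mod_cast hle
    · rw [min_eq_right (by exact_mod_cast hle)]
      obtain ⟨J, hJ, hJc⟩ := Set.exists_subset_card_eq hle
      rw [← hJc]
      apply ncard_le_rk N _ (hJ.trans hI)
      refine (hind J).mpr ⟨hi.subset hJ, ?_⟩
      rw [← (hfin.subset hJ).cast_ncard_eq]
      exact_mod_cast hJc.le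

end Pool.Agent.Helper666.FinGen
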