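import Pool.Agent.Helper666.FinGen.Expr

/-!
# Uncrossing and the junta inequality
-/

namespace Pool.Agent.Helper666.FinGen

open Set

variable {E : Type}

/-- the sum of `g` over the first `N` level sets of `m` -/
noncomputable def levelSum (g : Set E → ℤ) (N : ℕ) (m : E → ℕ) : ℤ :=
  ∑ t ∈ Finset.range N, g {x | t + 1 ≤ m x}

open Classical in
/-- the indicator function of a set, with natural number values -/
noncomputable def ind (X : Set E) (x : E) : ℕ := if x ∈ X then 1 else 0

theorem uncross_step {g : Set E → ℤ} (hg : Submod g) (X : Set E) (m : E → ℕ) (n : ℕ) :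
    levelSum g n (fun x => m x + ind X x) + g ({x | n ≤ m x} ∩ X) ≤ levelSum g n m + g X := by
  induction n with
  | zero =>
    unfold levelSum
    simp
  | succ n ih =>
    unfold levelSum at ih ⊢
    rw [Finset.sum_range_succ, Finset.sum_range_succ]
    have h1 := hg {x | n + 1 ≤ m x} ({x | n ≤ m x} ∩ X)
    have h2 : {x | n + 1 ≤ m x} ∪ ({x | n ≤ m x} ∩ X) = {x | n + 1 ≤ m x + ind X x} := by
      ext x
      simp only [Set.mem_union, Set.mem_ofPred_eq, Set.mem_inter_iff, ind]
      by_cases hx : x ∈ X <;> simp only [hx, and_true, and_false, or_false, if_true, if_false] <;> omega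
    have h3 : {x | n + 1 ≤ m x} ∩ ({x | n ≤ m x} ∩ X) = {x | n + 1 ≤ m x} ∩ X := by
      ext x
      simp only [Set.mem_ofPred_eq, Set.mem_inter_iff]
      constructor
      · rintro ⟨h4, _, h5⟩; exact ⟨h4, h5⟩
      · rintro ⟨h4, h5⟩; exact ⟨h4, by omega, h5⟩
    rw [h2, h3] at h1
    linarith

theorem uncross_one {g : Set E → ℤ} (hg : Submod g) (h0 : g ∅ = 0) (X : Set E) (m : E → ℕ) {N : ℕ}
    (hN : ∀ x, m x + ind X x ≤ N) :
    levelSum g N (fun x => m x + ind X x) ≤ levelSum g N m + g X := by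
  have h1 := uncross_step hg X m N
  have h2 : {x | N ≤ m x} ∩ X = ∅ := by
    ext x
    simp only [Set.mem_ofPred_eq, Set.mem_inter_iff, Set.mem_empty_iff_false, iff_false]
    rintro ⟨h3, h4⟩
    have := hN x
    simp only [ind, h4, if_true] at this
    omega
  rw [h2, h0] at h1
  linarith

theorem uncross_many {g : Set E → ℤ} (hg : Submod g) (h0 : g ∅ = 0) (X : Set E) (k : ℕ)
    (m : E → ℕ) {N : ℕ} (hN : ∀ x, m x + k * ind X x ≤ N) :
    levelSum g N (fun x => m x + k * ind X x) ≤ levelSum g N m + k * g X := by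
  induction k with
  | zero => simp
  | succ k ih =>
    have h1 := ih (fun x => by
      have := hN x
      have h2 : k * ind X x ≤ (k + 1) * ind X x := Nat.mul_le_mul_right _ (Nat.le_succ k)
      omega)
    have h2 := uncross_one hg h0 X (fun x => m x + k * ind X x) (N := N) (fun x => by
      have := hN x
      have h3 : (k + 1) * ind X x = k * ind X x + ind X x := by ring
      omega)
    have h3 : (fun x => m x + (k + 1) * ind X x) = fun x => m x + k * ind X x + ind X x := by
      funext x; ring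
    rw [h3]
    push_cast
    linarith

theorem uncross {g : Set E → ℤ} (hg : Submod g) (h0 : g ∅ = 0) {J : Type} (s : Finset J)
    (w : J → ℕ) (X : J → Set E) {N : ℕ} (hN : ∀ x, ∑ j ∈ s, w j * ind (X j) x ≤ N) :
    levelSum g N (fun x => ∑ j ∈ s, w j * ind (X j) x) ≤ ∑ j ∈ s, w j * g (X j) := by
  classical
  induction s using Finset.induction_on with
  | empty =>
    unfold levelSum
    simp [h0]
  | insert a s ha ih =>
    have e1 : (fun x => ∑ j ∈ insert a s, w j * ind (X j) x) =
        fun x => (∑ j ∈ s, w j * ind (X j) x) + w a * ind (X a) x := by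
      funext x
      rw [Finset.sum_insert ha, add_comm]
    rw [e1, Finset.sum_insert ha]
    have h1 := ih (fun x => by
      have := hN x
      rw [Finset.sum_insert ha] at this
      omega)
    have h2 := uncross_many hg h0 (X a) (w a) (fun x => ∑ j ∈ s, w j * ind (X j) x) (N := N)
      (fun x => by
        have := hN x
        rw [Finset.sum_insert ha] at this
        omega)
    linarith

/-- The junta inequality. `D v`, `v : V`, are pairwise disjoint sets, `L l` contains `D v` for
`v ∈ l` and is disjoint from the other `D v`, and `L l ∩ L l' ⊆ D v` for `l ≠ l'` both containing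
`v`. -/
theorem junta_ineq {V : Type} [Fintype V] [DecidableEq V] (Λ : Finset (Finset V))
    (D : V → Set E) (L : Finset V → Set E)
    (hD : ∀ u v, u ≠ v → D u ∩ D v = ∅)
    (hDL : ∀ l ∈ Λ, ∀ v ∈ l, D v ⊆ L l)
    (hDL' : ∀ l ∈ Λ, ∀ v ∉ l, L l ∩ D v = ∅)
    (hLL : ∀ l ∈ Λ, ∀ l' ∈ Λ, l ≠ l' → ∀ v, v ∈ l → v ∈ l' → L l ∩ L l' ⊆ D v)
    (m : E → ℕ) (c : ℕ) (hm1 : ∀ x v, x ∈ D v → m x = c)
    (hm2 : ∀ x, (∀ v, x ∉ D v) → m x = ∑ l ∈ Λ, ind (L l) x)
    {g : Set E → ℤ} (hg : Submod g) (h0 : g ∅ = 0) (S : Finset E) (hS : S.card ≤ c)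
    (hgS : ∀ X, g X = g (X ∩ ↑S)) {N : ℕ} (hN : Λ.card + Fintype.card V * c ≤ N) :
    (∑ l ∈ Λ, ∑ v ∈ l, g (D v)) + levelSum g N m ≤ (∑ l ∈ Λ, g (L l)) + c * ∑ v, g (D v) := by
  classical
  let pure : Finset V → Prop := fun l => ∃ v ∈ l, L l ∩ ↑S ⊆ D v
  set P := Λ.filter pure with hP
  set Q := Λ.filter (fun l => ¬ pure l) with hQ
  have hQΛ : ∀ l ∈ Q, l ∈ Λ := fun l hl => (Finset.mem_filter.mp hl).1
  have hPΛ : ∀ l ∈ P, l ∈ Λ := fun l hl => (Finset.mem_filter.mp hl).1
  let n : V → ℕ := fun v => (Q.filter (fun l => v ∈ l)).card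
  -- pure lines
  have hpure : ∀ l ∈ P, ∑ v ∈ l, g (D v) = g (L l) := by
    intro l hl
    obtain ⟨hlΛ, v, hv, hLv⟩ := Finset.mem_filter.mp hl
    rw [Finset.sum_eq_single v]
    · rw [hgS (D v), hgS (L l)]
      congr 1
      ext x
      constructor
      · rintro ⟨h1, h2⟩
        exact ⟨hDL l hlΛ v hv h1, h2⟩
      · rintro ⟨h1, h2⟩
        exact ⟨hLv ⟨h1, h2⟩, h2⟩
    · intro u hu huv
      rw [hgS]
      have h1 : D u ∩ ↑S = ∅ := by
        ext x
        simp only [Set.mem_inter_iff, Set.mem_empty_iff_false, iff_false]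
        rintro ⟨h1, h2⟩
        have h3 : x ∈ D v := hLv ⟨hDL l hlΛ u hu h1, h2⟩
        have h4 : x ∈ D u ∩ D v := ⟨h1, h3⟩
        rw [hD u v huv] at h4
        exact h4
      rw [h1, h0]
    · intro h
      exact absurd hv h
  -- the number of non-pure lines through a point
  have hn : ∀ v, n v ≤ c := by
    intro v
    refine le_trans ?_ hS
    have h1 : ∀ l : Finset V, l ∈ Q.filter (fun l => v ∈ l) → ∃ x, x ∈ S ∧ x ∈ L l ∧ x ∉ D v := by
      intro l hl
      obtain ⟨hl1, hvl⟩ := Finset.mem_filter.mp hl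
      obtain ⟨-, hl2⟩ := Finset.mem_filter.mp hl1
      by_contra hcon
      push Not at hcon
      exact hl2 ⟨v, hvl, fun x hx => hcon x hx.2 hx.1⟩
    rcases (Q.filter (fun l => v ∈ l)).eq_empty_or_nonempty with hemp | ⟨l₀, hl₀⟩
    · simp only [n, hemp, Finset.card_empty]
      exact Nat.zero_le _
    have : Nonempty E := ⟨(h1 l₀ hl₀).choose⟩
    choose! pt hpt1 hpt2 hpt3 using h1
    apply Finset.card_le_card_of_injOn pt hpt1
    intro l hl l' hl' heq
    by_contra hne
    have hl1 := Finset.mem_filter.mp (Finset.mem_coe.mp hl)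
    have hl1' := Finset.mem_filter.mp (Finset.mem_coe.mp hl')
    have h2 := hLL l (hQΛ l hl1.1) l' (hQΛ l' hl1'.1) hne v hl1.2 hl1'.2
    refine hpt3 l hl (h2 ⟨hpt2 l hl, ?_⟩)
    rw [heq]
    exact hpt2 l' hl'
  -- the uncrossed family
  let w : Finset V ⊕ V → ℕ := Sum.elim (fun _ => 1) (fun v => c - n v)
  let X : Finset V ⊕ V → Set E := Sum.elim L D
  let s : Finset (Finset V ⊕ V) := Q.disjSum Finset.univ
  have hsum : ∀ x, ∑ j ∈ s, w j * ind (X j) x =
      (∑ l ∈ Q, ind (L l) x) + ∑ v, (c - n v) * ind (D v) x := by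
    intro x
    simp only [s, Finset.sum_disjSum, w, X, Sum.elim_inl, Sum.elim_inr, one_mul]
  have hind : ∀ (A : Set E) x, ind A x ≤ 1 := by
    intro A x
    unfold ind
    split_ifs <;> simp
  have hNb : ∀ x, ∑ j ∈ s, w j * ind (X j) x ≤ N := by
    intro x
    rw [hsum]
    refine le_trans ?_ hN
    apply add_le_add
    · calc ∑ l ∈ Q, ind (L l) x ≤ ∑ l ∈ Q, 1 := Finset.sum_le_sum fun l _ => hind _ _
        _ = Q.card := by simp
        _ ≤ Λ.card := Finset.card_le_card (Finset.filter_subset _ _)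
    · calc ∑ v, (c - n v) * ind (D v) x ≤ ∑ v : V, c := Finset.sum_le_sum fun v _ => by
            calc (c - n v) * ind (D v) x ≤ c * 1 := Nat.mul_le_mul (Nat.sub_le _ _) (hind _ _)
              _ = c := mul_one c
        _ = Fintype.card V * c := by simp
  have h1 := uncross hg h0 s w X hNb
  -- multiplicities on `S`
  have hmult : ∀ x ∈ S, ∑ j ∈ s, w j * ind (X j) x = m x := by
    intro x hx
    rw [hsum]
    by_cases hxD : ∃ v, x ∈ D v
    · obtain ⟨v, hv⟩ := hxD
      rw [hm1 x v hv]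
      have h2 : ∑ l ∈ Q, ind (L l) x = n v := by
        simp only [n, Finset.card_filter]
        apply Finset.sum_congr rfl
        intro l hl
        unfold ind
        by_cases hvl : v ∈ l
        · rw [if_pos hvl, if_pos (hDL l (hQΛ l hl) v hvl hv)]
        · rw [if_neg hvl, if_neg]
          intro hxl
          have h3 : x ∈ L l ∩ D v := ⟨hxl, hv⟩
          rw [hDL' l (hQΛ l hl) v hvl] at h3
          exact h3
      have h3 : ∑ u, (c - n u) * ind (D u) x = c - n v := by
        rw [Finset.sum_eq_single v]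
        · unfold ind
          rw [if_pos hv, mul_one]
        · intro u _ huv
          unfold ind
          rw [if_neg, mul_zero]
          intro hxu
          have h3 : x ∈ D u ∩ D v := ⟨hxu, hv⟩
          rw [hD u v huv] at h3
          exact h3
        · intro h
          exact absurd (Finset.mem_univ v) h
      rw [h2, h3]
      have := hn v
      omega
    · push Not at hxD
      rw [hm2 x hxD]
      have h3 : ∑ u, (c - n u) * ind (D u) x = 0 := by
        apply Finset.sum_eq_zero
        intro u _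
        unfold ind
        rw [if_neg (hxD u), mul_zero]
      rw [h3, add_zero, hQ, Finset.sum_filter]
      apply Finset.sum_congr rfl
      intro l hl
      by_cases hp : pure l
      · rw [if_neg (not_not.mpr hp)]
        obtain ⟨v, hv, hLv⟩ := hp
        symm
        unfold ind
        apply if_neg
        intro hxl
        exact hxD v (hLv ⟨hxl, hx⟩)
      · rw [if_pos hp]
  have h2 : levelSum g N (fun x => ∑ j ∈ s, w j * ind (X j) x) = levelSum g N m := by
    unfold levelSum
    apply Finset.sum_congr rfl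
    intro t _
    rw [hgS, hgS {x | t + 1 ≤ m x}]
    congr 1
    ext x
    simp only [Set.mem_inter_iff, Set.mem_ofPred_eq, Finset.mem_coe]
    constructor
    · rintro ⟨h3, h4⟩
      rw [hmult x h4] at h3
      exact ⟨h3, h4⟩
    · rintro ⟨h3, h4⟩
      rw [hmult x h4]
      exact ⟨h3, h4⟩
  have h3 : ∑ j ∈ s, (w j : ℤ) * g (X j) =
      (∑ l ∈ Q, g (L l)) + ∑ v, ((c - n v : ℕ) : ℤ) * g (D v) := by
    simp only [s, Finset.sum_disjSum, w, X, Sum.elim_inl, Sum.elim_inr]
    simp
  rw [h2, h3] at h1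
  have h4 : ∑ v, ((c - n v : ℕ) : ℤ) * g (D v) = c * ∑ v, g (D v) - ∑ v, (n v : ℤ) * g (D v) := by
    rw [Finset.mul_sum, ← Finset.sum_sub_distrib]
    apply Finset.sum_congr rfl
    intro v _
    rw [Nat.cast_sub (hn v)]
    ring
  have h5 : ∑ l ∈ Q, ∑ v ∈ l, g (D v) = ∑ v, (n v : ℤ) * g (D v) := by
    have h6 : ∀ l ∈ Q, ∑ v ∈ l, g (D v) = ∑ v : V, if v ∈ l then g (D v) else 0 := by
      intro l _
      rw [Finset.sum_ite_mem, Finset.univ_inter]
    rw [Finset.sum_congr rfl h6, Finset.sum_comm]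
    apply Finset.sum_congr rfl
    intro v _
    rw [← Finset.sum_filter, Finset.sum_const, nsmul_eq_mul]
  have h6 : ∑ l ∈ Λ, ∑ v ∈ l, g (D v) =
      (∑ l ∈ P, ∑ v ∈ l, g (D v)) + ∑ l ∈ Q, ∑ v ∈ l, g (D v) := by
    rw [hP, hQ]
    exact (Finset.sum_filter_add_sum_filter_not Λ pure _).symm
  have h7 : ∑ l ∈ Λ, g (L l) = (∑ l ∈ P, g (L l)) + ∑ l ∈ Q, g (L l) := by
    rw [hP, hQ]
    exact (Finset.sum_filter_add_sum_filter_not Λ pure _).symm
  rw [h6, h7, Finset.sum_congr rfl hpure, h5]
  linarith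

end Pool.Agent.Helper666.FinGen
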